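import Pool.Agent.U265.MM.Lin

/-! From the dyadic scales to all scales, and the counts. -/

set_option autoImplicit false

namespace Pool.Agent.U265.MM

open Finset Filter Topology MeasureTheory
open Pool.Agent.Y854.PS
open Pool.Agent.Y854.GM
open Pool.Agent.N610.MS (R)

theorem part1 {α c : ℝ} (hα : 0 < α) (hc : 1 < c) (h : S_SEQ α c) : ∀ a η : ℝ, 0 < a → 0 < η →
    ∃ κ : ℝ, 0 < κ ∧ ∀ (C σ : ℝ), 0 < C → (σ = 1 ∨ σ = -1) → ∃ δ : ℝ, 0 < δ ∧ ∀ ε : ℝ, 0 < ε →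
      ∀ᶠ X : ℝ in atTop, ∃ (S : Finset ℕ) (w : ℕ → ℝ),
        ((∀ n ∈ S, X / 2 < ms α c n ∧ (ms α c n : ℝ) ≤ 3 * X) ∧
          (∀ n ∈ S, 0 ≤ w n ∧ w n ≤ X ^ (ε - 1 / c)) ∧ ∑ n ∈ S, w n = 1) ∧
        (∀ y : ℝ, Real.log X ^ a ≤ y → y ≤ Real.log X ^ (a + κ) → δ ≤ σ * (mean (ms α c) S w y - 1)) ∧
        (∀ y : ℝ, Real.log X ^ a ≤ y → y ≤ X ^ (4 / 5 : ℝ) → -(δ / C) ≤ σ * (mean (ms α c) S w y - 1)) ∧
        (∀ y : ℝ, Real.log X ^ (a + η) ≤ y → y ≤ X ^ (4 / 5 : ℝ) → |mean (ms α c) S w y - 1| ≤ δ / C) := by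
  intro a η ha hη
  have hc0 : 0 < c := by linarith
  have h1c : 1 / c ≤ 1 := by rw [div_le_one hc0]; exact hc.le
  have h1c0 : 0 < 1 / c := by positivity
  obtain ⟨κ, hκ, hM⟩ := h a η ha hη
  refine ⟨κ / 2, by positivity, fun C σ hC hσ => ?_⟩
  obtain ⟨δ, hδ, hM2⟩ := hM C σ hC hσ
  refine ⟨δ, hδ, fun ε hε => ?_⟩
  have ev1 : ∀ᶠ i : ℕ in atTop, (2 : ℝ) ^ (a + κ / 2) ≤ Real.log ((2 : ℝ) ^ i) ^ (κ / 2) :=
    ((tendsto_rpow_atTop (by positivity)).comp tend_L).eventually_ge_atTop _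
  have ev4 : ∀ᶠ i : ℕ in atTop, 2 ≤ ((2 : ℝ) ^ i) ^ (1 / 20 : ℝ) :=
    ((tendsto_rpow_atTop (by norm_num)).comp tend_2).eventually_ge_atTop 2
  obtain ⟨i0, hi0⟩ := (((hM2 (ε / 2) (by positivity)).and (ev1.and ev4)).and
    (tend_L.eventually_ge_atTop 1)).exists_forall_of_atTop
  have ev5 : ∀ᶠ X : ℝ in atTop, 2 ≤ X ^ (ε / 2) := (tendsto_rpow_atTop (by positivity)).eventually_ge_atTop 2
  filter_upwards [eventually_ge_atTop ((2 : ℝ) ^ (i0 + 1)), eventually_ge_atTop 2, ev5] with X hX1 hX2 hX5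
  obtain ⟨i, hi1, hi2⟩ := exists_nat_pow_near (x := X) (y := (2 : ℝ)) (by linarith) (by norm_num)
  have hii0 : i0 ≤ i := by
    have h1 : (2 : ℝ) ^ (i0 + 1) < 2 ^ (i + 1) := lt_of_le_of_lt hX1 hi2
    have h2 := (pow_lt_pow_iff_right₀ (by norm_num : (1 : ℝ) < 2)).mp h1
    omega
  obtain ⟨⟨⟨w, w1, w2, w3, m1, m2, m3⟩, g1, g4⟩, hL1⟩ := hi0 i hii0
  have hY : (0 : ℝ) < 2 ^ i := by positivity
  have hY1 : (1 : ℝ) ≤ 2 ^ i := one_le_pow₀ (by norm_num)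
  have hX0 : (0 : ℝ) < X := by linarith
  have hXY : X ≤ 2 * 2 ^ i := by rw [pow_succ] at hi2; linarith
  set L := Real.log ((2 : ℝ) ^ i) with hL
  have hL0 : 0 < L := by linarith
  have hlX : L ≤ Real.log X := Real.log_le_log hY hi1
  have hlX2 : Real.log X ≤ 2 * L := by
    have h1 : Real.log X ≤ Real.log (2 * 2 ^ i) := Real.log_le_log hX0 hXY
    rw [Real.log_mul (by norm_num) hY.ne'] at h1
    have h2 := Real.log_two_lt_d9
    linarith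
  have hlX0 : 0 < Real.log X := by linarith
  have hr : X ^ (4 / 5 : ℝ) ≤ ((2 : ℝ) ^ i) ^ (17 / 20 : ℝ) := by
    have h1 : ((2 : ℝ) ^ i) ^ (17 / 20 : ℝ) = ((2 : ℝ) ^ i) ^ (4 / 5 : ℝ) * ((2 : ℝ) ^ i) ^ (1 / 20 : ℝ) := by
      rw [← Real.rpow_add hY]
      norm_num
    calc X ^ (4 / 5 : ℝ) ≤ (2 * 2 ^ i) ^ (4 / 5 : ℝ) := Real.rpow_le_rpow hX0.le hXY (by norm_num)
      _ = 2 ^ (4 / 5 : ℝ) * ((2 : ℝ) ^ i) ^ (4 / 5 : ℝ) := Real.mul_rpow (by norm_num) hY.le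
      _ ≤ 2 * ((2 : ℝ) ^ i) ^ (4 / 5 : ℝ) := by
          apply mul_le_mul_of_nonneg_right _ (by positivity)
          calc (2 : ℝ) ^ (4 / 5 : ℝ) ≤ 2 ^ (1 : ℝ) := Real.rpow_le_rpow_of_exponent_le (by norm_num) (by norm_num)
            _ = 2 := Real.rpow_one 2
      _ ≤ _ := by
          rw [h1, mul_comm]
          exact mul_le_mul_of_nonneg_left g4 (by positivity)
  have hla : L ^ a ≤ Real.log X ^ a := Real.rpow_le_rpow hL0.le hlX ha.le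
  refine ⟨SW α c i, w, ⟨?_, ?_, w3⟩, ?_, ?_, ?_⟩
  · intro n hn
    rw [mem_SW hα hc] at hn
    have h1 : (2 : ℝ) ^ i < ms α c n := by exact_mod_cast hn.2.1
    have h2 : (ms α c n : ℝ) ≤ 3 * 2 ^ i := by exact_mod_cast hn.2.2
    constructor <;> linarith
  · intro n hn
    refine ⟨w1 n, (w2 n hn).trans ?_⟩
    have h1 : ((2 : ℝ) ^ i) ^ (ε / 2 - 1 / c) = ((2 : ℝ) ^ i) ^ (ε / 2) * ((2 : ℝ) ^ i) ^ (-(1 / c)) := by
      rw [← Real.rpow_add hY]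
      congr 1
    have h2 : ((2 : ℝ) ^ i) ^ (ε / 2) ≤ X ^ (ε / 2) := Real.rpow_le_rpow hY.le hi1 (by positivity)
    have h3 : ((2 : ℝ) ^ i) ^ (-(1 / c)) ≤ 2 * X ^ (-(1 / c)) := by
      calc ((2 : ℝ) ^ i) ^ (-(1 / c)) ≤ (X / 2) ^ (-(1 / c)) :=
            Real.rpow_le_rpow_of_nonpos (by positivity) (by linarith) (by linarith)
        _ = X ^ (-(1 / c)) * (2 : ℝ) ^ (1 / c) := by
            rw [Real.div_rpow hX0.le (by norm_num), Real.rpow_neg (by norm_num : (0 : ℝ) ≤ 2), div_inv_eq_mul]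
        _ ≤ X ^ (-(1 / c)) * 2 := by
            apply mul_le_mul_of_nonneg_left _ (by positivity)
            calc (2 : ℝ) ^ (1 / c) ≤ 2 ^ (1 : ℝ) := Real.rpow_le_rpow_of_exponent_le (by norm_num) h1c
              _ = 2 := Real.rpow_one 2
        _ = _ := by ring
    rw [h1]
    calc ((2 : ℝ) ^ i) ^ (ε / 2) * ((2 : ℝ) ^ i) ^ (-(1 / c)) ≤ X ^ (ε / 2) * (2 * X ^ (-(1 / c))) :=
          mul_le_mul h2 h3 (by positivity) (by positivity)
      _ = 2 * (X ^ (ε / 2) * X ^ (-(1 / c))) := by ring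
      _ ≤ X ^ (ε / 2) * (X ^ (ε / 2) * X ^ (-(1 / c))) :=
          mul_le_mul_of_nonneg_right hX5 (by positivity)
      _ = X ^ (ε - 1 / c) := by
          rw [← Real.rpow_add hX0, ← Real.rpow_add hX0]
          congr 1
          ring
  · intro y hy1 hy2
    apply m1 y (hla.trans hy1) (hy2.trans _)
    calc Real.log X ^ (a + κ / 2) ≤ (2 * L) ^ (a + κ / 2) := Real.rpow_le_rpow hlX0.le hlX2 (by positivity)
      _ = 2 ^ (a + κ / 2) * L ^ (a + κ / 2) := Real.mul_rpow (by norm_num) hL0.le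
      _ ≤ L ^ (κ / 2) * L ^ (a + κ / 2) := mul_le_mul_of_nonneg_right g1 (by positivity)
      _ = L ^ (a + κ) := by
          rw [← Real.rpow_add hL0]
          congr 1
          ring
  · intro y hy1 hy2
    exact m2 y (hla.trans hy1) (hy2.trans hr)
  · intro y hy1 hy2
    exact m3 y ((Real.rpow_le_rpow hL0.le hlX (by positivity)).trans hy1) (hy2.trans hr)

open Classical in
/-- from the windows to the initial segments -/
theorem to_N {α c : ℝ} (hα : 0 < α) (hc : 1 < c) (P : ℕ → Prop)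
    (h : ∀ ε : ℝ, 0 < ε → ∀ᶠ i : ℕ in atTop, ((2 : ℝ) ^ i) ^ (1 / c - ε) ≤ (((SW α c i).filter P).card : ℝ))
    (ε : ℝ) (hε : 0 < ε) : ∀ᶠ N : ℕ in atTop, (N : ℝ) ^ (1 - ε) ≤ (((Icc 1 N).filter P).card : ℝ) := by
  have hc0 : 0 < c := by linarith
  set ε1 : ℝ := min (ε / (2 * c)) (1 / (2 * c)) with hε1
  have hε10 : 0 < ε1 := lt_min (by positivity) (by positivity)
  have hb1 : c * ε1 ≤ ε / 2 := by
    have h1 : ε1 ≤ ε / (2 * c) := min_le_left _ _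
    have h2 := mul_le_mul_of_nonneg_left h1 hc0.le
    have h3 : c * (ε / (2 * c)) = ε / 2 := by field_simp
    linarith
  have hb2 : 0 < 1 / c - ε1 := by
    have h1 : ε1 ≤ 1 / (2 * c) := min_le_right _ _
    have h2 : 1 / (2 * c) < 1 / c := by
      rw [div_lt_div_iff₀ (by positivity) hc0]
      linarith
    linarith
  obtain ⟨i0, hi0⟩ := (h ε1 hε10).exists_forall_of_atTop
  have t1 : Tendsto (fun N : ℕ => α * (N : ℝ) ^ c) atTop atTop :=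
    Tendsto.const_mul_atTop hα ((tendsto_rpow_atTop hc0).comp tendsto_natCast_atTop_atTop)
  have t2 : Tendsto (fun N : ℕ => (N : ℝ) ^ (ε / 2)) atTop atTop :=
    (tendsto_rpow_atTop (by positivity)).comp tendsto_natCast_atTop_atTop
  filter_upwards [t1.eventually_ge_atTop (3 * 2 ^ (i0 + 1) + 4), t2.eventually_ge_atTop ((12 / α) ^ (1 / c - ε1)),
    eventually_ge_atTop 1] with N hN1 hN2 hN3
  have hN0 : (0 : ℝ) < N := by exact_mod_cast hN3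
  set T : ℝ := (α * (N : ℝ) ^ c - 1) / 3 with hT
  have hp : (0 : ℝ) < 2 ^ (i0 + 1) := by positivity
  have hT1 : 1 ≤ T := by
    rw [hT, le_div_iff₀ (by norm_num)]
    linarith
  obtain ⟨i, hi1, hi2⟩ := exists_nat_pow_near (x := T) (y := (2 : ℝ)) hT1 (by norm_num)
  have hii0 : i0 ≤ i := by
    have h1 : (2 : ℝ) ^ (i0 + 1) < 2 ^ (i + 1) := by
      refine lt_of_le_of_lt ?_ hi2
      rw [hT, le_div_iff₀ (by norm_num)]
      linarith
    have h2 := (pow_lt_pow_iff_right₀ (by norm_num : (1 : ℝ) < 2)).mp h1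
    omega
  have hmain := hi0 i hii0
  have hsub : (SW α c i).filter P ⊆ (Icc 1 N).filter P := by
    intro n hn
    rw [mem_filter, mem_SW hα hc] at hn
    rw [mem_filter, mem_Icc]
    refine ⟨⟨hn.1.1, ?_⟩, hn.2⟩
    by_contra hcon
    push Not at hcon
    have h1 := ms_mono hα hc0.le hcon.le
    have h2 : 3 * 2 ^ i + 1 ≤ ms α c N := by
      unfold ms xs
      apply Nat.le_floor
      push_cast
      rw [hT, le_div_iff₀ (by norm_num)] at hi1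
      linarith
    omega
  have hcard : (((SW α c i).filter P).card : ℝ) ≤ (((Icc 1 N).filter P).card : ℝ) := by
    exact_mod_cast Finset.card_le_card hsub
  refine le_trans ?_ (hmain.trans hcard)
  have hbase : α / 12 * (N : ℝ) ^ c ≤ 2 ^ i := by
    rw [pow_succ, hT, div_lt_iff₀ (by norm_num)] at hi2
    linarith
  have h3 : (α / 12 * (N : ℝ) ^ c) ^ (1 / c - ε1) ≤ ((2 : ℝ) ^ i) ^ (1 / c - ε1) :=
    Real.rpow_le_rpow (by positivity) hbase hb2.le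
  refine le_trans ?_ h3
  rw [Real.mul_rpow (by positivity) (by positivity), ← Real.rpow_mul hN0.le]
  have h4 : c * (1 / c - ε1) = 1 - c * ε1 := by
    rw [mul_sub, mul_one_div_cancel hc0.ne']
  rw [h4]
  have h5 : (12 / α) ^ (1 / c - ε1) * (α / 12) ^ (1 / c - ε1) = 1 := by
    rw [← Real.mul_rpow (by positivity) (by positivity)]
    have : 12 / α * (α / 12) = 1 := by field_simp
    rw [this, Real.one_rpow]
  have hN1' : (1 : ℝ) ≤ N := by exact_mod_cast hN3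
  have h6 : (N : ℝ) ^ (1 - ε) ≤ (N : ℝ) ^ (1 - c * ε1 - ε / 2) :=
    Real.rpow_le_rpow_of_exponent_le hN1' (by linarith)
  have h7 : (N : ℝ) ^ (1 - c * ε1) = (N : ℝ) ^ (ε / 2) * (N : ℝ) ^ (1 - c * ε1 - ε / 2) := by
    rw [← Real.rpow_add hN0]
    congr 1
    ring
  rw [h7]
  have h8 : 1 ≤ (α / 12) ^ (1 / c - ε1) * (N : ℝ) ^ (ε / 2) := by
    calc (1 : ℝ) = (α / 12) ^ (1 / c - ε1) * (12 / α) ^ (1 / c - ε1) := by rw [mul_comm, h5]
      _ ≤ _ := mul_le_mul_of_nonneg_left hN2 (by positivity)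
  calc (N : ℝ) ^ (1 - ε) ≤ (N : ℝ) ^ (1 - c * ε1 - ε / 2) := h6
    _ ≤ ((α / 12) ^ (1 / c - ε1) * (N : ℝ) ^ (ε / 2)) * (N : ℝ) ^ (1 - c * ε1 - ε / 2) :=
        le_mul_of_one_le_left (by positivity) h8
    _ = _ := by ring

open Classical in
theorem part2 {α c : ℝ} (hα : 0 < α) (hc : 1 < c) (h : S_SEQ α c) : ∀ (μ : Measure ℝ), IsFiniteMeasure μ →
    ∀ (f : ℝ → ℝ) (B a η A : ℝ), Measurable f → (∀ t, |f t| ≤ B) → 0 < a → 0 < η →
      μ (Set.Iio a) = 0 → μ (Set.Ioi A) = 0 →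
      (∀ t, a ≤ t → t ≤ a + η → 0 ≤ f t) → (∀ κ : ℝ, 0 < κ → 0 < ∫ t in Set.Icc a (a + κ), f t ∂μ) →
      ∃ δ : ℝ, 0 < δ ∧ ∀ ε : ℝ, 0 < ε → ∀ᶠ N : ℕ in atTop,
        (N : ℝ) ^ (1 - ε) ≤ (((Icc 1 N).filter (fun n =>
          (∫ t, f t ∂μ) + δ ≤ ∫ t, f t * R (ms α c n) (Real.log (ms α c n) ^ t) ∂μ)).card : ℝ) ∧
        (N : ℝ) ^ (1 - ε) ≤ (((Icc 1 N).filter (fun n =>
          ∫ t, f t * R (ms α c n) (Real.log (ms α c n) ^ t) ∂μ ≤ (∫ t, f t ∂μ) - δ)).card : ℝ) := by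
  intro μ hμ f B a η A hf hfB ha hη hμa hμA hf0 hfp
  obtain ⟨δ1, hδ1, e1⟩ := lin_core hα hc h μ f B a η A hf hfB ha hη hμa hμA hf0 hfp 1 (Or.inl rfl)
  obtain ⟨δ2, hδ2, e2⟩ := lin_core hα hc h μ f B a η A hf hfB ha hη hμa hμA hf0 hfp (-1) (Or.inr rfl)
  have l1 : min δ1 δ2 ≤ δ1 := min_le_left _ _
  have l2 : min δ1 δ2 ≤ δ2 := min_le_right _ _
  refine ⟨min δ1 δ2, lt_min hδ1 hδ2, fun ε hε => ?_⟩
  have f1 := to_N hα hc _ e1 ε hε
  have f2 := to_N hα hc _ e2 ε hε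
  filter_upwards [f1, f2] with N g1 g2
  constructor
  · refine g1.trans ?_
    have : ((Icc 1 N).filter (fun n => δ1 ≤ 1 * ((∫ t, f t * R (ms α c n) (Real.log (ms α c n) ^ t) ∂μ) -
        ∫ t, f t ∂μ))) ⊆ ((Icc 1 N).filter (fun n =>
          (∫ t, f t ∂μ) + min δ1 δ2 ≤ ∫ t, f t * R (ms α c n) (Real.log (ms α c n) ^ t) ∂μ)) := by
      intro n hn
      rw [mem_filter] at hn ⊢
      exact ⟨hn.1, by linarith [hn.2]⟩
    exact_mod_cast Finset.card_le_card this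
  · refine g2.trans ?_
    have : ((Icc 1 N).filter (fun n => δ2 ≤ (-1) * ((∫ t, f t * R (ms α c n) (Real.log (ms α c n) ^ t) ∂μ) -
        ∫ t, f t ∂μ))) ⊆ ((Icc 1 N).filter (fun n =>
          ∫ t, f t * R (ms α c n) (Real.log (ms α c n) ^ t) ∂μ ≤ (∫ t, f t ∂μ) - min δ1 δ2)) := by
      intro n hn
      rw [mem_filter] at hn ⊢
      exact ⟨hn.1, by linarith [hn.2]⟩
    exact_mod_cast Finset.card_le_card this

open Classical in
/-- a single scale -/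
theorem part3 {α c : ℝ} (hα : 0 < α) (hc : 1 < c) (h : S_SEQ α c) (a : ℝ) (ha : 0 < a) :
    ∃ δ : ℝ, 0 < δ ∧ ∀ ε : ℝ, 0 < ε → ∀ᶠ N : ℕ in atTop,
      (N : ℝ) ^ (1 - ε) ≤ (((Icc 1 N).filter (fun n =>
        1 + δ ≤ R (ms α c n) (Real.log (ms α c n) ^ a))).card : ℝ) ∧
      (N : ℝ) ^ (1 - ε) ≤ (((Icc 1 N).filter (fun n =>
        R (ms α c n) (Real.log (ms α c n) ^ a) ≤ 1 - δ)).card : ℝ) := by
  obtain ⟨δ, hδ, hN⟩ := part2 hα hc h (Measure.dirac a) inferInstance (fun _ => 1) 1 a 1 a measurable_const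
    (fun _ => by simp) ha one_pos (by simp) (by simp) (fun _ _ _ => zero_le_one) (fun κ hκ => by
      rw [integral_const, smul_eq_mul, mul_one, measureReal_restrict_apply_univ]
      have : a ∈ Set.Icc a (a + κ) := ⟨le_rfl, by linarith⟩
      simp [measureReal_def, this])
  refine ⟨δ, hδ, fun ε hε => ?_⟩
  filter_upwards [hN ε hε] with N g
  have e1 : ∫ _ : ℝ, (1 : ℝ) ∂(Measure.dirac a) = 1 := by simp
  have e2 : ∀ n : ℕ, ∫ t, (1 : ℝ) * R (ms α c n) (Real.log (ms α c n) ^ t) ∂(Measure.dirac a) =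
      R (ms α c n) (Real.log (ms α c n) ^ a) := by
    intro n
    rw [integral_dirac, one_mul]
  simp only [e1, e2] at g
  exact g

end Pool.Agent.U265.MM
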