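import Pool.Agent.Y854.GM.Mean

/-! The block law for countably many families of functions which depend on the dyadic block,
uniformly in the members of each family. -/

set_option autoImplicit false

open Finset Filter

namespace Pool.Agent.U265.MM

open Pool.Agent.Y854.PS
open Pool.Agent.Y854.GM
open Pool.Agent.Y854.ST (sum_wt_up)

/-- growth of a family, uniform in its members: `F i k t` is used for `2 ^ i < t ≤ 2 ^ (i + 1)` -/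
def UG (η : ℝ) (F : ℕ → ℕ → ℕ → ℝ) : Prop := ∃ C : ℝ, 0 < C ∧ ∀ i k t : ℕ, k ≤ i → 2 ^ i < t → t ≤ 2 ^ (i + 1) →
  |F i k t| ≤ C * ((2 : ℝ) ^ i) ^ η

/-- one dyadic block -/
theorem block3 (α c κ : ℝ) (hα : 0 < α) (hc : 1 < c) (hκ : 0 < κ) (hκ1 : κ ≤ 1 / (8 * c))
    (F : ℕ → ℕ → ℕ → ℝ)
    (hF : UG (κ / 4) F) (hS : SampG (fun i j => AF (F i) i j) MF (ms α c) c (α ^ (-(1 / c))) κ) :
    ∃ K : ℝ, 0 < K ∧ ∃ i0 : ℕ, ∀ i : ℕ, i0 ≤ i → ∀ k : ℕ, k ≤ i →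
    ∀ y : ℕ, 2 ^ i ≤ y → y ≤ 2 ^ (i + 1) → ∀ S : Finset ℕ, (∀ n, n ∈ S ↔ 1 ≤ n ∧ 2 ^ i < ms α c n ∧ ms α c n ≤ y) →
      |∑ n ∈ S, F i k (ms α c n) - α ^ (-(1 / c)) * ∑ t ∈ Ioc (2 ^ i) y, wt c t * F i k t| ≤
        K * ((2 : ℝ) ^ i) ^ (1 / c - κ / 2) := by
  classical
  have hc0 : 0 < c := by linarith
  set a := α ^ (-(1 / c)) with ha
  have ha0 : 0 < a := Real.rpow_pos_of_pos hα _
  obtain ⟨C, hC, i1, h1⟩ := hS
  obtain ⟨Cf, hCf, hf⟩ := hF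
  obtain ⟨Cb, hCb, hblock⟩ := block_card hα hc
  have hκ2 : κ ≤ 1 / 8 := hκ1.trans (by
    rw [div_le_div_iff₀ (by positivity) (by norm_num)]
    linarith)
  -- growth
  obtain ⟨i2, hi2⟩ : ∃ i2 : ℕ, ∀ i : ℕ, i2 ≤ i → Cf * ((2 : ℝ) ^ i) ^ (κ / 4) ≤ (2 : ℝ) ^ i := by
    have h2 : Tendsto (fun i : ℕ => ((2 : ℝ) ^ i) ^ (1 - κ / 4)) atTop atTop :=
      (tendsto_rpow_atTop (by linarith)).comp (tendsto_pow_atTop_atTop_of_one_lt (by norm_num))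
    obtain ⟨i2, hi2⟩ := (h2.eventually (eventually_ge_atTop Cf)).exists_forall_of_atTop
    refine ⟨i2, fun i hi => ?_⟩
    have h3 := hi2 i hi
    have hX : (0 : ℝ) < 2 ^ i := by positivity
    calc Cf * ((2 : ℝ) ^ i) ^ (κ / 4) ≤ ((2 : ℝ) ^ i) ^ (1 - κ / 4) * ((2 : ℝ) ^ i) ^ (κ / 4) :=
          mul_le_mul_of_nonneg_right h3 (by positivity)
      _ = (2 : ℝ) ^ i := by
          rw [← Real.rpow_add hX]
          simp
  refine ⟨2 * (2 * Cf * C + Cb + 2 * a), by positivity, max i1 i2, fun i hi k hiik y hy1 hy2 S hSc => ?_⟩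
  have hii1 : i1 ≤ i := (le_max_left _ _).trans hi
  have hii2 : i2 ≤ i := (le_max_right _ _).trans hi
  have hX : (0 : ℝ) < 2 ^ i := by positivity
  have hX1 : (1 : ℝ) ≤ 2 ^ i := one_le_pow₀ (by norm_num)
  set G : ℝ := Cf * ((2 : ℝ) ^ i) ^ (κ / 4) with hG
  have hG0 : 0 ≤ G := by positivity
  have hFG : ∀ t, 2 ^ i < t → t ≤ y → |F i k t| ≤ G := fun t ht1 ht2 =>
    hf i k t hiik ht1 (ht2.trans hy2)
  have hsamp : ∀ j < MF i, |∑ n ∈ S, (if ms α c n ∈ AF (F i) i j then (1 : ℝ) else 0) -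
        a * ∑ t ∈ Ioc (2 ^ i) y, wt c t * (if t ∈ AF (F i) i j then (1 : ℝ) else 0)| ≤
          C * ((2 : ℝ) ^ i) ^ (1 / c - κ) := by
    intro j hj
    exact h1 i hii1 j hj (2 ^ i) y le_rfl hy1 hy2 S hSc
  have hb : ∀ s < 2, |∑ n ∈ S, sg (F i) s k (ms α c n) - a * ∑ t ∈ Ioc (2 ^ i) y, wt c t * sg (F i) s k t| ≤
      2 * G * (C * ((2 : ℝ) ^ i) ^ (1 / c - κ)) + (S.card + a * ∑ t ∈ Ioc (2 ^ i) y, wt c t) / 2 ^ i := fun s hs =>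
    blockG (F i) (ms α c) c a κ C ha0.le i k s hiik hs hc hC.le (2 ^ i) y le_rfl hy1 hy2 S hSc hsamp G hG0 hFG (hi2 i hii2)
  -- the size of the error
  have hcard : (S.card : ℝ) ≤ Cb * ((2 : ℝ) ^ i) ^ (1 / c) := by
    apply hblock
    intro n hn
    have := (hSc n).mp hn
    exact ⟨this.1, this.2.2.trans hy2⟩
  have hwt : a * ∑ t ∈ Ioc (2 ^ i) y, wt c t ≤ 2 * a * ((2 : ℝ) ^ i) ^ (1 / c) := by
    have h2 : ∑ t ∈ Ioc (2 ^ i) y, wt c t ≤ ∑ t ∈ Ioc 0 (2 ^ (i + 1)), wt c t := by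
      apply Finset.sum_le_sum_of_subset_of_nonneg
      · intro t ht
        rw [mem_Ioc] at ht ⊢
        constructor <;> omega
      · intro t _ _
        exact wt_nonneg hc t
    have h3 := sum_wt_up hc (2 ^ (i + 1))
    have h4 : (((2 ^ (i + 1) : ℕ)) : ℝ) ^ (1 / c) ≤ 2 * ((2 : ℝ) ^ i) ^ (1 / c) := by
      push_cast
      rw [pow_succ, mul_comm, Real.mul_rpow (by norm_num) hX.le]
      apply mul_le_mul_of_nonneg_right _ (by positivity)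
      have h5 : 1 / c ≤ 1 := by rw [div_le_one hc0]; exact hc.le
      calc (2 : ℝ) ^ (1 / c) ≤ (2 : ℝ) ^ (1 : ℝ) := Real.rpow_le_rpow_of_exponent_le (by norm_num) h5
        _ = 2 := Real.rpow_one 2
    calc a * ∑ t ∈ Ioc (2 ^ i) y, wt c t ≤ a * (2 * ((2 : ℝ) ^ i) ^ (1 / c)) :=
          mul_le_mul_of_nonneg_left (h2.trans (h3.trans h4)) ha0.le
      _ = _ := by ring
  have hdiv : (S.card + a * ∑ t ∈ Ioc (2 ^ i) y, wt c t) / 2 ^ i ≤ (Cb + 2 * a) * ((2 : ℝ) ^ i) ^ (1 / c - κ / 2) := by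
    rw [div_le_iff₀ hX]
    have h2 : ((2 : ℝ) ^ i) ^ (1 / c) ≤ ((2 : ℝ) ^ i) ^ (1 / c - κ / 2) * 2 ^ i := by
      have h3 : ((2 : ℝ) ^ i) ^ (1 / c - κ / 2) * 2 ^ i = ((2 : ℝ) ^ i) ^ (1 / c - κ / 2 + 1) := by
        rw [Real.rpow_add hX, Real.rpow_one]
      rw [h3]
      exact Real.rpow_le_rpow_of_exponent_le hX1 (by linarith)
    have h4 : (0 : ℝ) ≤ Cb + 2 * a := by positivity
    have h5 := mul_le_mul_of_nonneg_left h2 h4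
    nlinarith
  have hGX : 2 * G * (C * ((2 : ℝ) ^ i) ^ (1 / c - κ)) ≤ 2 * Cf * C * ((2 : ℝ) ^ i) ^ (1 / c - κ / 2) := by
    have h2 : ((2 : ℝ) ^ i) ^ (κ / 4) * ((2 : ℝ) ^ i) ^ (1 / c - κ) ≤ ((2 : ℝ) ^ i) ^ (1 / c - κ / 2) := by
      rw [← Real.rpow_add hX]
      exact Real.rpow_le_rpow_of_exponent_le hX1 (by linarith)
    calc 2 * G * (C * ((2 : ℝ) ^ i) ^ (1 / c - κ)) =
        2 * Cf * C * (((2 : ℝ) ^ i) ^ (κ / 4) * ((2 : ℝ) ^ i) ^ (1 / c - κ)) := by rw [hG]; ring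
      _ ≤ _ := mul_le_mul_of_nonneg_left h2 (by positivity)
  have hb0 := hb 0 (by norm_num)
  have hb1 := hb 1 (by norm_num)
  have e : ∑ n ∈ S, F i k (ms α c n) - a * ∑ t ∈ Ioc (2 ^ i) y, wt c t * F i k t =
      (∑ n ∈ S, sg (F i) 0 k (ms α c n) - a * ∑ t ∈ Ioc (2 ^ i) y, wt c t * sg (F i) 0 k t) -
      (∑ n ∈ S, sg (F i) 1 k (ms α c n) - a * ∑ t ∈ Ioc (2 ^ i) y, wt c t * sg (F i) 1 k t) := by
    have e1 : ∑ n ∈ S, F i k (ms α c n) = ∑ n ∈ S, sg (F i) 0 k (ms α c n) - ∑ n ∈ S, sg (F i) 1 k (ms α c n) := by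
      rw [← Finset.sum_sub_distrib]
      exact Finset.sum_congr rfl fun n _ => (sg_sub (F i) k _).symm
    have e2 : ∑ t ∈ Ioc (2 ^ i) y, wt c t * F i k t = ∑ t ∈ Ioc (2 ^ i) y, wt c t * sg (F i) 0 k t -
        ∑ t ∈ Ioc (2 ^ i) y, wt c t * sg (F i) 1 k t := by
      rw [← Finset.sum_sub_distrib]
      refine Finset.sum_congr rfl fun n _ => ?_
      rw [← sg_sub (F i) k n]
      ring
    rw [e1, e2]
    ring
  rw [e]
  refine (abs_sub _ _).trans ?_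
  nlinarith

/-- the law on the window `(2 ^ i, 3 * 2 ^ i]`, uniformly in the first `i + 1` members of a family -/
def Win (α c κ : ℝ) (g : ℕ → ℕ → ℕ → ℝ) : Prop := ∃ K : ℝ, 0 < K ∧ ∃ i0 : ℕ, ∀ i : ℕ, i0 ≤ i → ∀ k : ℕ, k ≤ i →
    ∀ S : Finset ℕ, (∀ n, n ∈ S ↔ 1 ≤ n ∧ 2 ^ i < ms α c n ∧ ms α c n ≤ 3 * 2 ^ i) →
      |∑ n ∈ S, g i k (ms α c n) - α ^ (-(1 / c)) * ∑ t ∈ Ioc (2 ^ i) (3 * 2 ^ i), wt c t * g i k t| ≤
        K * ((2 : ℝ) ^ i) ^ (1 / c - κ)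

/-- growth of a family on the windows -/
def WG (η : ℝ) (g : ℕ → ℕ → ℕ → ℝ) : Prop := ∃ C : ℝ, 0 < C ∧ ∀ i k t : ℕ, k ≤ i → 2 ^ i < t → t ≤ 3 * 2 ^ i →
  |g i k t| ≤ C * ((2 : ℝ) ^ i) ^ η

/-- **The window law for countably many families.** -/
theorem windows (c : ℝ) (hc : 1 < c) : ∃ κ : ℝ, 0 < κ ∧ κ < 1 ∧ ∀ {ι : Type} [Countable ι]
    (g : ι → ℕ → ℕ → ℕ → ℝ), (∀ q, WG κ (g q)) →
    ∃ E : Set ℝ, dimH E < 1 ∧ ∀ α : ℝ, 0 < α → α ∉ E → ∀ q : ι, Win α c κ (g q) := by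
  classical
  obtain ⟨κ, hκ, hκ1, hsamp⟩ := samp_gen c hc
  have hc0 : 0 < c := by linarith
  have hκ2 : κ ≤ 1 / 8 := hκ1.trans (by
    rw [div_le_div_iff₀ (by positivity) (by norm_num)]
    linarith)
  refine ⟨κ / 4, by positivity, by linarith, fun {ι} _ g hg => ?_⟩
  -- the two families of blocks
  set F0 : ι → ℕ → ℕ → ℕ → ℝ := fun q i k t => g q i k t with hF0
  set F1 : ι → ℕ → ℕ → ℕ → ℝ := fun q i k t => if k + 1 ≤ i ∧ t ≤ 3 * 2 ^ (i - 1) then g q (i - 1) k t else 0 with hF1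
  choose E0 hE0 hα0 using fun q => hsamp 4 MF MF_le (fun i j => AF (F0 q i) i j)
  choose E1 hE1 hα1 using fun q => hsamp 4 MF MF_le (fun i j => AF (F1 q i) i j)
  refine ⟨(⋃ q, E0 q) ∪ (⋃ q, E1 q), ?_, fun α hα hαE q => ?_⟩
  · have hlt : ENNReal.ofReal (1 - κ) < 1 := by
      have : (1 : ENNReal) = ENNReal.ofReal 1 := by simp
      rw [this]
      exact (ENNReal.ofReal_lt_ofReal_iff (by norm_num)).mpr (by linarith)
    refine lt_of_le_of_lt ?_ hlt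
    rw [dimH_union, dimH_iUnion, dimH_iUnion]
    exact max_le (iSup_le hE0) (iSup_le hE1)
  have hq0 : α ∉ E0 q := fun h => hαE (Or.inl (Set.mem_iUnion.mpr ⟨q, h⟩))
  have hq1 : α ∉ E1 q := fun h => hαE (Or.inr (Set.mem_iUnion.mpr ⟨q, h⟩))
  obtain ⟨Cg, hCg, hgrow⟩ := hg q
  have hG0 : UG (κ / 4) (F0 q) := by
    refine ⟨Cg, hCg, fun i k t hk h1 h2 => ?_⟩
    apply hgrow i k t hk h1
    rw [pow_succ] at h2
    omega
  have hG1 : UG (κ / 4) (F1 q) := by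
    refine ⟨Cg, hCg, fun i k t hk h1 h2 => ?_⟩
    simp only [hF1]
    split_ifs with h
    · have h3 := hgrow (i - 1) k t (by omega) (lt_of_le_of_lt (Nat.pow_le_pow_right (by norm_num) (by omega)) h1) h.2
      refine h3.trans (mul_le_mul_of_nonneg_left ?_ hCg.le)
      apply Real.rpow_le_rpow (by positivity) _ (by positivity)
      exact pow_le_pow_right₀ (by norm_num) (by omega)
    · rw [abs_zero]; positivity
  obtain ⟨K0, hK0, i0, h0⟩ := block3 α c κ hα hc hκ hκ1 (F0 q) hG0 (hα0 q α hα hq0)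
  obtain ⟨K1, hK1, i1, h1⟩ := block3 α c κ hα hc hκ hκ1 (F1 q) hG1 (hα1 q α hα hq1)
  refine ⟨K0 + 2 * K1, by positivity, max i0 i1, fun i hi k hk S hS => ?_⟩
  have hi0 : i0 ≤ i := (le_max_left _ _).trans hi
  have hi1 : i1 ≤ i + 1 := ((le_max_right _ _).trans hi).trans (Nat.le_succ _)
  have hX : (0 : ℝ) < 2 ^ i := by positivity
  have hX1 : (1 : ℝ) ≤ 2 ^ i := one_le_pow₀ (by norm_num)
  have hp : 2 ^ (i + 1) = 2 * 2 ^ i := by rw [pow_succ]; ring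
  have hp2 : 2 ^ (i + 1 + 1) = 4 * 2 ^ i := by rw [pow_succ, pow_succ]; ring
  set SA := S.filter (fun n => ms α c n ≤ 2 ^ (i + 1)) with hSA
  set SB := S.filter (fun n => ¬ ms α c n ≤ 2 ^ (i + 1)) with hSB
  have hA := h0 i hi0 k hk (2 ^ (i + 1)) (by omega) le_rfl SA (by
    intro n
    rw [hSA, mem_filter, hS]
    constructor
    · rintro ⟨⟨h1, h2, h3⟩, h4⟩
      exact ⟨h1, h2, h4⟩
    · rintro ⟨h1, h2, h3⟩
      refine ⟨⟨h1, h2, ?_⟩, h3⟩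
      omega)
  have hB := h1 (i + 1) hi1 k (by omega) (3 * 2 ^ i) (by omega) (by omega) SB (by
    intro n
    rw [hSB, mem_filter, hS]
    constructor
    · rintro ⟨⟨h1, h2, h3⟩, h4⟩
      exact ⟨h1, by omega, h3⟩
    · rintro ⟨h1, h2, h3⟩
      exact ⟨⟨h1, by omega, h3⟩, by omega⟩)
  have eF1 : ∀ t, t ≤ 3 * 2 ^ i → F1 q (i + 1) k t = g q i k t := by
    intro t ht
    simp only [hF1, Nat.add_sub_cancel]
    rw [if_pos ⟨by omega, ht⟩]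
  have eB1 : ∑ n ∈ SB, F1 q (i + 1) k (ms α c n) = ∑ n ∈ SB, g q i k (ms α c n) := by
    apply Finset.sum_congr rfl
    intro n hn
    apply eF1
    rw [hSB, mem_filter, hS] at hn
    exact hn.1.2.2
  have eB2 : ∑ t ∈ Ioc (2 ^ (i + 1)) (3 * 2 ^ i), wt c t * F1 q (i + 1) k t =
      ∑ t ∈ Ioc (2 ^ (i + 1)) (3 * 2 ^ i), wt c t * g q i k t := by
    apply Finset.sum_congr rfl
    intro t ht
    rw [mem_Ioc] at ht
    rw [eF1 t ht.2]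
  rw [eB1, eB2] at hB
  have eS : ∑ n ∈ S, g q i k (ms α c n) = ∑ n ∈ SA, g q i k (ms α c n) + ∑ n ∈ SB, g q i k (ms α c n) := by
    rw [hSA, hSB]
    exact (Finset.sum_filter_add_sum_filter_not S _ _).symm
  have eT : ∑ t ∈ Ioc (2 ^ i) (3 * 2 ^ i), wt c t * g q i k t =
      ∑ t ∈ Ioc (2 ^ i) (2 ^ (i + 1)), wt c t * g q i k t + ∑ t ∈ Ioc (2 ^ (i + 1)) (3 * 2 ^ i), wt c t * g q i k t :=
    (Finset.sum_Ioc_consecutive _ (by omega) (by omega)).symm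
  have hpow0 : ((2 : ℝ) ^ i) ^ (1 / c - κ / 2) ≤ ((2 : ℝ) ^ i) ^ (1 / c - κ / 4) :=
    Real.rpow_le_rpow_of_exponent_le hX1 (by linarith)
  have hpow1 : ((2 : ℝ) ^ (i + 1)) ^ (1 / c - κ / 2) ≤ 2 * ((2 : ℝ) ^ i) ^ (1 / c - κ / 4) := by
    have h5 : 1 / c ≤ 1 := by rw [div_le_one hc0]; exact hc.le
    rw [pow_succ, mul_comm, Real.mul_rpow (by norm_num) hX.le]
    apply mul_le_mul _ hpow0 (by positivity) (by norm_num)
    calc (2 : ℝ) ^ (1 / c - κ / 2) ≤ (2 : ℝ) ^ (1 : ℝ) :=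
          Real.rpow_le_rpow_of_exponent_le (by norm_num) (by linarith)
      _ = 2 := Real.rpow_one 2
  rw [eS, eT]
  have hA' : |∑ n ∈ SA, g q i k (ms α c n) - α ^ (-(1 / c)) * ∑ t ∈ Ioc (2 ^ i) (2 ^ (i + 1)), wt c t * g q i k t| ≤
      K0 * ((2 : ℝ) ^ i) ^ (1 / c - κ / 4) := hA.trans (mul_le_mul_of_nonneg_left hpow0 hK0.le)
  have hB' : |∑ n ∈ SB, g q i k (ms α c n) - α ^ (-(1 / c)) * ∑ t ∈ Ioc (2 ^ (i + 1)) (3 * 2 ^ i), wt c t * g q i k t| ≤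
      K1 * (2 * ((2 : ℝ) ^ i) ^ (1 / c - κ / 4)) := hB.trans (mul_le_mul_of_nonneg_left hpow1 hK1.le)
  rw [abs_le] at hA' hB' ⊢
  constructor <;> nlinarith [hA'.1, hA'.2, hB'.1, hB'.2]

end Pool.Agent.U265.MM
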