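import Pool.Agent.U265.MM.Sand

/-! The weights on the sequence, at the dyadic scales. -/

set_option autoImplicit false

open Finset Filter

namespace Pool.Agent.U265.MM

open Pool.Agent.Y854.PS
open Pool.Agent.Y854.GM
open Pool.Agent.N610.MS (R S_MAIN)

/-- a countable cover by half-open intervals -/
theorem cover (κ : ℝ → ℝ) (hκ : ∀ a : ℝ, 0 < a → 0 < κ a) : ∃ A : Set ℝ, A.Countable ∧ (∀ b ∈ A, 0 < b) ∧
    ∀ a : ℝ, 0 < a → ∃ b ∈ A, b ≤ a ∧ a < b + κ b := by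
  obtain ⟨T, hT, hTU⟩ := TopologicalSpace.isOpen_iUnion_countable
    (fun b : {b : ℝ // 0 < b} => Set.Ioo (b : ℝ) (b + κ b)) (fun b => isOpen_Ioo)
  set U : Set ℝ := ⋃ b : {b : ℝ // 0 < b}, Set.Ioo (b : ℝ) (b + κ b) with hU
  set D : Set ℝ := {d : ℝ | 0 < d ∧ d ∉ U} with hD
  have hDc : D.Countable := by
    have hdisj : D.PairwiseDisjoint (fun d => Set.Ioo d (d + κ d)) := by
      have key : ∀ d ∈ D, ∀ d' ∈ D, d < d' → Disjoint (Set.Ioo d (d + κ d)) (Set.Ioo d' (d' + κ d')) := by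
        intro d hd d' hd' hlt
        rw [Set.disjoint_left]
        intro x hx hx'
        have h1 : d' ∉ Set.Ioo d (d + κ d) := by
          intro h
          exact hd'.2 (Set.mem_iUnion.mpr ⟨⟨d, hd.1⟩, h⟩)
        apply h1
        exact ⟨hlt, hx'.1.trans hx.2⟩
      intro d hd d' hd' hne
      rcases lt_or_gt_of_ne hne with h | h
      · exact key d hd d' hd' h
      · exact (key d' hd' d hd h).symm
    apply hdisj.countable_of_isOpen (fun d _ => isOpen_Ioo)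
    intro d hd
    exact Set.nonempty_Ioo.mpr (by have := hκ d hd.1; linarith)
  refine ⟨(fun b : {b : ℝ // 0 < b} => (b : ℝ)) '' T ∪ D, (hT.image _).union hDc, ?_, ?_⟩
  · rintro b (⟨b', _, rfl⟩ | hb)
    · exact b'.2
    · exact hb.1
  · intro a ha
    by_cases haU : a ∈ U
    · rw [← hTU] at haU
      simp only [Set.mem_iUnion] at haU
      obtain ⟨b, hb, hab⟩ := haU
      exact ⟨b, Or.inl ⟨b, hb, rfl⟩, hab.1.le, hab.2⟩
    · exact ⟨a, Or.inr ⟨ha, haU⟩, le_rfl, by have := hκ a ha; linarith⟩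

/-- the properties of the weights on the integers -/
def Prp (b η κ C σ δ ε X : ℝ) (w : ℕ → ℝ) : Prop :=
  ∃ (W : ℕ), 0 < W ∧ (W : ℝ) ≤ X ^ ε ∧
      (∀ n, 0 ≤ w n ∧ w n ≤ 20 * W / X) ∧
      (∀ n, w n ≠ 0 → X < n ∧ (n : ℝ) < 3 * X ∧ W ∣ n) ∧
      ∑ n ∈ Icc 1 ⌊3 * X⌋₊, w n = 1 ∧
      (∀ y : ℝ, Real.log X ^ b ≤ y → y ≤ Real.log X ^ (b + κ) →
        δ ≤ σ * (∑ n ∈ Icc 1 ⌊3 * X⌋₊, w n * R n y - 1)) ∧
      (∀ y : ℝ, Real.log X ^ b ≤ y → y ≤ X ^ (9 / 10 : ℝ) →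
        -(δ / C) ≤ σ * (∑ n ∈ Icc 1 ⌊3 * X⌋₊, w n * R n y - 1)) ∧
      (∀ y : ℝ, Real.log X ^ (b + η) ≤ y → y ≤ X ^ (9 / 10 : ℝ) →
        |∑ n ∈ Icc 1 ⌊3 * X⌋₊, w n * R n y - 1| ≤ δ / C)

/-- the parameters -/
structure Par where
  b : ℝ
  η : ℝ
  κ : ℝ
  C : ℝ
  σ : ℝ
  δ : ℝ
  ε : ℝ

/-- admissible parameters -/
def Par.Ok (p : Par) : Prop := 0 < p.b ∧ 0 < p.η ∧ 0 < p.κ ∧ 0 < p.C ∧ (p.σ = 1 ∨ p.σ = -1) ∧ 0 < p.δ ∧ 0 < p.ε ∧
  ∀ᶠ X : ℝ in atTop, ∃ w, Prp p.b p.η p.κ p.C p.σ p.δ p.ε X w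

open Classical in
/-- the weights at the scale `2 ^ i` -/
noncomputable def wsel (p : Par) (i : ℕ) : ℕ → ℝ :=
  if h : ∃ w, Prp p.b p.η p.κ p.C p.σ p.δ p.ε ((2 : ℝ) ^ i) w then h.choose else 0

lemma wsel_bd (p : Par) (i t : ℕ) : 0 ≤ wsel p i t ∧ wsel p i t ≤ 20 * ((2 : ℝ) ^ i) ^ (p.ε - 1) := by
  have hX : (0 : ℝ) < 2 ^ i := by positivity
  unfold wsel
  split_ifs with h
  · obtain ⟨W, hW0, hW1, hw, -⟩ := h.choose_spec
    refine ⟨(hw t).1, (hw t).2.trans ?_⟩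
    rw [Real.rpow_sub hX, Real.rpow_one, ← mul_div_assoc]
    apply div_le_div_of_nonneg_right _ hX.le
    linarith
  · simp only [Pi.zero_apply]
    exact ⟨le_rfl, by positivity⟩

lemma wsel_sum (p : Par) (i : ℕ) (h : ∃ w, Prp p.b p.η p.κ p.C p.σ p.δ p.ε ((2 : ℝ) ^ i) w) (g : ℕ → ℝ) :
    ∑ n ∈ Icc 1 ⌊3 * (2 : ℝ) ^ i⌋₊, wsel p i n * g n = ∑ t ∈ Ioc (2 ^ i) (3 * 2 ^ i), wsel p i t * g t := by
  have e : ⌊3 * (2 : ℝ) ^ i⌋₊ = 3 * 2 ^ i := by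
    have : (3 * (2 : ℝ) ^ i) = ((3 * 2 ^ i : ℕ) : ℝ) := by push_cast; ring
    rw [this, Nat.floor_natCast]
  rw [e]
  symm
  apply Finset.sum_subset
  · intro t ht
    rw [mem_Ioc] at ht
    rw [mem_Icc]
    omega
  · intro t ht ht2
    have h0 : wsel p i t = 0 := by
      by_contra hne
      have hP : Prp p.b p.η p.κ p.C p.σ p.δ p.ε ((2 : ℝ) ^ i) (wsel p i) := by
        unfold wsel
        rw [dif_pos h]
        exact h.choose_spec
      obtain ⟨W, -, -, -, hs, -⟩ := hP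
      obtain ⟨h1, h2, -⟩ := hs t hne
      apply ht2
      rw [mem_Ioc]
      constructor
      · exact_mod_cast h1
      · exact_mod_cast h2.le
    rw [h0, zero_mul]

/-- the weighted mean over a finite part of the sequence -/
noncomputable def mean (m : ℕ → ℕ) (S : Finset ℕ) (u : ℕ → ℝ) (y : ℝ) : ℝ := ∑ n ∈ S, u n * R (m n) y

/-- the properties of the weights on the sequence, at the scale `2 ^ i` -/
def Out (α c : ℝ) (p : Par) (C0 : ℝ) (i : ℕ) : Prop := ∃ u : ℕ → ℝ,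
  (∀ n, 0 ≤ u n) ∧ (∀ n ∈ SW α c i, u n ≤ C0 * ((2 : ℝ) ^ i) ^ (p.ε - 1 / c)) ∧ ∑ n ∈ SW α c i, u n = 1 ∧
  (∀ y : ℝ, Real.log (2 ^ i) ^ p.b ≤ y → y ≤ Real.log (2 ^ i) ^ (p.b + p.κ) / 2 →
    p.δ / 2 ≤ p.σ * (mean (ms α c) (SW α c i) u y - 1)) ∧
  (∀ y : ℝ, Real.log (2 ^ i) ^ p.b ≤ y → y ≤ ((2 : ℝ) ^ i) ^ (9 / 10 : ℝ) / 2 →
    -(2 * (p.δ / p.C)) ≤ p.σ * (mean (ms α c) (SW α c i) u y - 1)) ∧
  (∀ y : ℝ, 2 * Real.log (2 ^ i) ^ (p.b + p.η) ≤ y → y ≤ ((2 : ℝ) ^ i) ^ (9 / 10 : ℝ) / 2 →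
    |mean (ms α c) (SW α c i) u y - 1| ≤ 2 * (p.δ / p.C))

/-- **The weights on the sequence.** -/
theorem core (c : ℝ) (hc : 1 < c) : ∃ κ0 : ℝ, 0 < κ0 ∧ κ0 < 1 ∧ ∀ {Q : Type} [Countable Q] (P : Q → Par),
    (∀ q, (P q).Ok ∧ (P q).ε ≤ κ0) → ∃ E : Set ℝ, dimH E < 1 ∧ ∀ α : ℝ, 0 < α → α ∉ E → ∀ q : Q,
      ∃ C0 : ℝ, 0 < C0 ∧ ∀ᶠ i : ℕ in atTop, Out α c (P q) C0 i := by
  classical
  obtain ⟨κ0, h0, h1, htr⟩ := transfer c hc
  have hc0 : 0 < c := by linarith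
  refine ⟨κ0, h0, h1, fun {Q} _ P hP => ?_⟩
  obtain ⟨E, hE, hlaw⟩ := htr (fun q => wsel (P q)) (fun q => (P q).b) (fun q => ⟨20, by norm_num, fun i t => by
    obtain ⟨h2, h3⟩ := wsel_bd (P q) i t
    rw [abs_of_nonneg h2]
    refine h3.trans (mul_le_mul_of_nonneg_left ?_ (by norm_num))
    exact Real.rpow_le_rpow_of_exponent_le (one_le_pow₀ (by norm_num)) (by linarith [(hP q).2])⟩)
  refine ⟨E, hE, fun α hα hαE q => ?_⟩
  obtain ⟨hV, hM⟩ := hlaw α hα hαE q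
  obtain ⟨⟨hb, hη, hκ, hC, hσ, hδ, hε, hev⟩, -⟩ := hP q
  set p := P q with hp
  set w := wsel p with hw
  have hw0 : ∀ i t, 0 ≤ w i t := fun i t => (wsel_bd p i t).1
  have hev2 : ∀ᶠ i : ℕ in atTop, ∃ u, Prp p.b p.η p.κ p.C p.σ p.δ p.ε ((2 : ℝ) ^ i) u :=
    (tendsto_pow_atTop_atTop_of_one_lt (by norm_num : (1 : ℝ) < 2)).eventually hev
  have hspec : ∀ i, (∃ u, Prp p.b p.η p.κ p.C p.σ p.δ p.ε ((2 : ℝ) ^ i) u) →
      Prp p.b p.η p.κ p.C p.σ p.δ p.ε ((2 : ℝ) ^ i) (w i) := by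
    intro i h
    rw [hw]
    unfold wsel
    rw [dif_pos h]
    exact h.choose_spec
  have hw1 : ∀ᶠ i : ℕ in atTop, ∑ t ∈ Ioc (2 ^ i) (3 * 2 ^ i), w i t = 1 := by
    filter_upwards [hev2] with i hi
    have h2 := wsel_sum p i hi (fun _ => 1)
    simp only [mul_one] at h2
    obtain ⟨W, -, -, -, -, h3, -⟩ := hspec i hi
    rw [← h2]
    exact h3
  have hδC : 0 < p.δ / p.C := by positivity
  set ρ : ℝ := min (p.δ / 2) (p.δ / p.C) with hρ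
  have hρ0 : 0 < ρ := lt_min (by positivity) hδC
  have hρ1 : ρ ≤ p.δ / 2 := min_le_left _ _
  have hρ2 : ρ ≤ p.δ / p.C := min_le_right _ _
  have hs := sand hα hc hb w hw0 hw1 hV hM (p.δ + p.δ / p.C) ρ (by positivity) hρ0
  set a := α ^ (-(1 / c)) with ha
  have ha0 : 0 < a := Real.rpow_pos_of_pos hα _
  refine ⟨120 * c / a, by positivity, ?_⟩
  have hlog : ∀ᶠ i : ℕ in atTop, Real.log ((2 : ℝ) ^ i) ^ (p.b + p.κ) ≤ 2 ^ i := by
    have h2 := (isLittleO_log_rpow_rpow_atTop (s := (1 : ℝ)) (p.b + p.κ) one_pos).bound one_pos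
    have h3 := (tendsto_pow_atTop_atTop_of_one_lt (by norm_num : (1 : ℝ) < 2)).eventually h2
    filter_upwards [h3] with i h4
    rw [one_mul, Real.rpow_one] at h4
    have h5 : (0 : ℝ) ≤ Real.log (2 ^ i) := Real.log_nonneg (one_le_pow₀ (by norm_num))
    rw [Real.norm_of_nonneg (by positivity), Real.norm_of_nonneg (by positivity)] at h4
    exact h4
  filter_upwards [hs, hev2, eventually_ge_atTop 2, hlog] with i hi hPi hi2 hlogi
  obtain ⟨hV1, hV2, hsy⟩ := hi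
  have hX : (0 : ℝ) < 2 ^ i := by positivity
  have hX1 : (1 : ℝ) ≤ 2 ^ i := one_le_pow₀ (by norm_num)
  have hVpos : 0 < VV α c w i := by linarith
  have hL1 : 1 ≤ Real.log ((2 : ℝ) ^ i) := by
    rw [Real.log_pow]
    have h4 : (2 : ℝ) ≤ i := by exact_mod_cast hi2
    have h5 := Real.log_two_gt_d9
    nlinarith
  set L := Real.log ((2 : ℝ) ^ i) with hL
  have hLb : 1 ≤ L ^ p.b := Real.one_le_rpow hL1 hb.le
  obtain ⟨W, -, -, -, -, -, r1, r2, r3⟩ := hspec i hPi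
  have hsum : ∀ y, ∑ n ∈ Icc 1 ⌊3 * (2 : ℝ) ^ i⌋₊, w i n * R n y = MM w i y := fun y =>
    wsel_sum p i hPi (fun n => R n y)
  simp only [hsum] at r1 r2 r3
  have hmean : ∀ y, mean (ms α c) (SW α c i) (fun n => vv α c (w i) n / VV α c w i) y =
      NN α c w i y / VV α c w i := by
    intro y
    unfold mean NN
    rw [Finset.sum_div]
    apply Finset.sum_congr rfl
    intro n _
    ring
  have h910 : ((2 : ℝ) ^ i) ^ (9 / 10 : ℝ) ≤ 2 ^ i := by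
    calc ((2 : ℝ) ^ i) ^ (9 / 10 : ℝ) ≤ ((2 : ℝ) ^ i) ^ (1 : ℝ) :=
          Real.rpow_le_rpow_of_exponent_le hX1 (by norm_num)
      _ = 2 ^ i := Real.rpow_one _
  have hB1 : |p.δ| ≤ p.δ + p.δ / p.C := by rw [abs_of_pos hδ]; linarith
  have hB2 : |(-p.δ)| ≤ p.δ + p.δ / p.C := by rw [abs_neg]; exact hB1
  have hB3 : |p.δ / p.C| ≤ p.δ + p.δ / p.C := by rw [abs_of_pos hδC]; linarith
  have hB4 : |(-(p.δ / p.C))| ≤ p.δ + p.δ / p.C := by rw [abs_neg]; exact hB3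
  refine ⟨fun n => vv α c (w i) n / VV α c w i, fun n => div_nonneg (vv_nonneg hα hc (hw0 i) n) hVpos.le,
    ?_, ?_, ?_, ?_, ?_⟩
  · -- the size of the weights
    intro n hn
    rw [mem_SW hα hc] at hn
    have hwt := wt_pos hc (m := ms α c n) (by omega)
    have h2 := inv_wt hc hn.2.1 hn.2.2
    have h3 := (wsel_bd p i (ms α c n)).2
    have h4 : vv α c (w i) n ≤ 60 * c / a * ((2 : ℝ) ^ i) ^ (p.ε - 1 / c) := by
      unfold vv
      rw [← ha]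
      calc w i (ms α c n) / (wt c (ms α c n) * a) = w i (ms α c n) * (1 / wt c (ms α c n)) * (1 / a) := by
            field_simp
        _ ≤ (20 * ((2 : ℝ) ^ i) ^ (p.ε - 1)) * (3 * c * ((2 : ℝ) ^ i) ^ (1 - 1 / c)) * (1 / a) := by
            apply mul_le_mul_of_nonneg_right _ (by positivity)
            exact mul_le_mul h3 h2 (by positivity) (by positivity)
        _ = 60 * c / a * (((2 : ℝ) ^ i) ^ (p.ε - 1) * ((2 : ℝ) ^ i) ^ (1 - 1 / c)) := by ring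
        _ = _ := by
            rw [← Real.rpow_add hX]
            congr 2
            ring
    rw [div_le_iff₀ hVpos]
    have h5 : 0 ≤ 60 * c / a * ((2 : ℝ) ^ i) ^ (p.ε - 1 / c) := by positivity
    calc vv α c (w i) n ≤ 60 * c / a * ((2 : ℝ) ^ i) ^ (p.ε - 1 / c) := h4
      _ ≤ (60 * c / a * ((2 : ℝ) ^ i) ^ (p.ε - 1 / c)) * (2 * VV α c w i) :=
          le_mul_of_one_le_right h5 (by linarith)
      _ = _ := by ring
  · rw [← Finset.sum_div]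
    exact div_self hVpos.ne'
  · -- the first range
    intro y hy1 hy2
    rw [hmean]
    have hy3 : y ≤ 2 ^ i := by linarith
    obtain ⟨⟨z, z1, z2, z3, hz⟩, ⟨z', z1', z2', hz'⟩⟩ := hsy y hy1 hy3
    rcases hσ with hs | hs
    · rw [hs] at r1 ⊢
      have h2 := r1 z z1 (by linarith [Real.rpow_nonneg (by linarith : 0 ≤ L) (p.b + p.κ)])
      have h3 := hz p.δ hB1 (by linarith)
      linarith
    · rw [hs] at r1 ⊢
      have h2 := r1 z' (by linarith) (by linarith)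
      have h3 := hz' (-p.δ) hB2 (by linarith)
      linarith
  · intro y hy1 hy2
    rw [hmean]
    have hy3 : y ≤ 2 ^ i := by linarith
    obtain ⟨⟨z, z1, z2, z3, hz⟩, ⟨z', z1', z2', hz'⟩⟩ := hsy y hy1 hy3
    rcases hσ with hs | hs
    · rw [hs] at r2 ⊢
      have h2 := r2 z z1 (by linarith)
      have h3 := hz (-(p.δ / p.C)) hB4 (by linarith)
      linarith
    · rw [hs] at r2 ⊢
      have h2 := r2 z' (by linarith) (by linarith)
      have h3 := hz' (p.δ / p.C) hB3 (by linarith)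
      linarith
  · intro y hy1 hy2
    rw [hmean]
    have hy3 : y ≤ 2 ^ i := by linarith
    have hbη : L ^ p.b ≤ L ^ (p.b + p.η) := Real.rpow_le_rpow_of_exponent_le hL1 (by linarith)
    obtain ⟨⟨z, z1, z2, z3, hz⟩, ⟨z', z1', z2', hz'⟩⟩ := hsy y (by linarith) hy3
    have h2 := abs_le.mp (r3 z (by linarith) (by linarith))
    have h3 := hz (-(p.δ / p.C)) hB4 (by linarith [h2.1])
    have h4 := abs_le.mp (r3 z' (by linarith) (by linarith))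
    have h5 := hz' (p.δ / p.C) hB3 (by linarith [h4.2])
    rw [abs_le]
    constructor <;> linarith

end Pool.Agent.U265.MM
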