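import Pool.Agent.U265.MM.Core

/-! Separation of scales along the sequence, at the dyadic scales, for all real exponents. -/

set_option autoImplicit false

open Finset Filter

namespace Pool.Agent.U265.MM

open Pool.Agent.Y854.PS
open Pool.Agent.Y854.GM
open Pool.Agent.N610.MS (R S_MAIN)

/-- separation of scales along the sequence `⌊α n ^ c⌋`, at the dyadic scales -/
def S_SEQ (α c : ℝ) : Prop := ∀ a η : ℝ, 0 < a → 0 < η → ∃ κ : ℝ, 0 < κ ∧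
  ∀ (C σ : ℝ), 0 < C → (σ = 1 ∨ σ = -1) → ∃ δ : ℝ, 0 < δ ∧ ∀ ε : ℝ, 0 < ε →
    ∀ᶠ i : ℕ in atTop, ∃ u : ℕ → ℝ,
      (∀ n, 0 ≤ u n) ∧ (∀ n ∈ SW α c i, u n ≤ ((2 : ℝ) ^ i) ^ (ε - 1 / c)) ∧ ∑ n ∈ SW α c i, u n = 1 ∧
      (∀ y : ℝ, Real.log (2 ^ i) ^ a ≤ y → y ≤ Real.log (2 ^ i) ^ (a + κ) →
        δ ≤ σ * (mean (ms α c) (SW α c i) u y - 1)) ∧
      (∀ y : ℝ, Real.log (2 ^ i) ^ a ≤ y → y ≤ ((2 : ℝ) ^ i) ^ (17 / 20 : ℝ) →
        -(δ / C) ≤ σ * (mean (ms α c) (SW α c i) u y - 1)) ∧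
      (∀ y : ℝ, Real.log (2 ^ i) ^ (a + η) ≤ y → y ≤ ((2 : ℝ) ^ i) ^ (17 / 20 : ℝ) →
        |mean (ms α c) (SW α c i) u y - 1| ≤ δ / C)

lemma tend_L : Tendsto (fun i : ℕ => Real.log ((2 : ℝ) ^ i)) atTop atTop :=
  Real.tendsto_log_atTop.comp (tendsto_pow_atTop_atTop_of_one_lt (by norm_num : (1 : ℝ) < 2))

theorem all_scales (hmain : S_MAIN) (c : ℝ) (hc : 1 < c) : ∃ E : Set ℝ, dimH E < 1 ∧
    ∀ α : ℝ, 0 < α → α ∉ E → S_SEQ α c := by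
  classical
  obtain ⟨κ0, hκ00, hκ01, hcore⟩ := core c hc
  -- the constants
  have hM1 : ∃ κf : ℝ → ℝ → ℝ, ∀ a η : ℝ, 0 < a → 0 < η → 0 < κf a η ∧
      ∀ (C σ : ℝ), 0 < C → (σ = 1 ∨ σ = -1) → ∃ δ : ℝ, 0 < δ ∧ ∀ ε : ℝ, 0 < ε →
        ∀ᶠ X : ℝ in atTop, ∃ w, Prp a η (κf a η) C σ δ ε X w := by
    refine ⟨fun a η => if h : 0 < a ∧ 0 < η then (hmain a η h.1 h.2).choose else 0, fun a η ha hη => ?_⟩
    simp only [dif_pos (⟨ha, hη⟩ : 0 < a ∧ 0 < η)]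
    obtain ⟨h1, h2⟩ := (hmain a η ha hη).choose_spec
    refine ⟨h1, fun C σ hC hσ => ?_⟩
    obtain ⟨δ, hδ, h3⟩ := h2 C σ hC hσ
    refine ⟨δ, hδ, fun ε hε => ?_⟩
    filter_upwards [h3 ε hε] with X hX
    obtain ⟨W, w, hw⟩ := hX
    exact ⟨w, W, hw⟩
  obtain ⟨κf, hκf⟩ := hM1
  have hM2 : ∃ δf : ℝ → ℝ → ℝ → ℝ → ℝ, ∀ a η C σ : ℝ, 0 < a → 0 < η → 0 < C → (σ = 1 ∨ σ = -1) →
      0 < δf a η C σ ∧ ∀ ε : ℝ, 0 < ε → ∀ᶠ X : ℝ in atTop, ∃ w, Prp a η (κf a η) C σ (δf a η C σ) ε X w := by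
    refine ⟨fun a η C σ => if h : (0 < a ∧ 0 < η) ∧ 0 < C ∧ (σ = 1 ∨ σ = -1) then
      ((hκf a η h.1.1 h.1.2).2 C σ h.2.1 h.2.2).choose else 0, fun a η C σ ha hη hC hσ => ?_⟩
    simp only [dif_pos (⟨⟨ha, hη⟩, hC, hσ⟩ : (0 < a ∧ 0 < η) ∧ 0 < C ∧ (σ = 1 ∨ σ = -1))]
    exact ((hκf a η ha hη).2 C σ hC hσ).choose_spec
  obtain ⟨δf, hδf⟩ := hM2
  -- the countable families of exponents
  have hcov : ∀ m : ℕ, ∃ A : Set ℝ, A.Countable ∧ (∀ b ∈ A, 0 < b) ∧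
      ∀ a : ℝ, 0 < a → ∃ b ∈ A, b ≤ a ∧ a < b + κf b (1 / ((m : ℝ) + 1)) := fun m =>
    cover (fun b => κf b (1 / ((m : ℝ) + 1))) (fun b hb => (hκf b _ hb (by positivity)).1)
  choose A hAc hA0 hAcov using hcov
  haveI : ∀ m, Countable (A m) := fun m => (hAc m).to_subtype
  set P : (Σ m : ℕ, (A m : Set ℝ)) × ℕ × Bool × ℕ → Par := fun q =>
    { b := q.1.2
      η := 1 / ((q.1.1 : ℝ) + 1)
      κ := κf q.1.2 (1 / ((q.1.1 : ℝ) + 1))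
      C := (q.2.1 : ℝ) + 1
      σ := if q.2.2.1 then 1 else -1
      δ := δf q.1.2 (1 / ((q.1.1 : ℝ) + 1)) ((q.2.1 : ℝ) + 1) (if q.2.2.1 then 1 else -1)
      ε := κ0 / ((q.2.2.2 : ℝ) + 1) } with hP
  have hσ' : ∀ s : Bool, (if s then (1 : ℝ) else -1) = 1 ∨ (if s then (1 : ℝ) else -1) = -1 := by
    intro s
    cases s
    · right; rfl
    · left; rfl
  have hPok : ∀ q, (P q).Ok ∧ (P q).ε ≤ κ0 := by
    rintro ⟨⟨m, b, hb⟩, C, s, e⟩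
    have hb0 := hA0 m b hb
    have hη : (0 : ℝ) < 1 / ((m : ℝ) + 1) := by positivity
    have hC : (0 : ℝ) < (C : ℝ) + 1 := by positivity
    have hε : 0 < κ0 / ((e : ℝ) + 1) := by positivity
    obtain ⟨h1, h2⟩ := hδf b _ _ _ hb0 hη hC (hσ' s)
    refine ⟨⟨hb0, hη, (hκf b _ hb0 hη).1, hC, hσ' s, h1, hε, h2 _ hε⟩, ?_⟩
    show κ0 / ((e : ℝ) + 1) ≤ κ0
    apply div_le_self hκ00.le
    have : (0 : ℝ) ≤ e := Nat.cast_nonneg _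
    linarith
  obtain ⟨E, hE, hlaw⟩ := hcore P hPok
  refine ⟨E, hE, fun α hα hαE a η ha hη => ?_⟩
  obtain ⟨m, hm⟩ := exists_nat_gt (2 / η)
  have hηm : 1 / ((m : ℝ) + 1) ≤ η / 2 := by
    have h1 : 0 < 2 / η := by positivity
    have h2 : 2 / η < (m : ℝ) + 1 := by linarith
    rw [div_le_div_iff₀ (by positivity) (by norm_num)]
    rw [div_lt_iff₀ hη] at h2
    linarith
  obtain ⟨b, hbA, hba, hab⟩ := hAcov m a ha
  have hb0 := hA0 m b hbA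
  set κb := κf b (1 / ((m : ℝ) + 1)) with hκb
  refine ⟨(b + κb - a) / 2, by linarith, fun C σ hC hσ => ?_⟩
  obtain ⟨Cn, hCn⟩ := exists_nat_gt (4 * C)
  obtain ⟨s, hs⟩ : ∃ s : Bool, (if s then (1 : ℝ) else -1) = σ := by
    rcases hσ with h | h
    · exact ⟨true, by simp [h]⟩
    · exact ⟨false, by simp [h]⟩
  set δ0 := δf b (1 / ((m : ℝ) + 1)) ((Cn : ℝ) + 1) σ with hδ0
  have hδ0p : 0 < δ0 := (hδf b _ _ _ hb0 (by positivity) (by positivity) hσ).1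
  refine ⟨δ0 / 2, by positivity, fun ε hε => ?_⟩
  obtain ⟨e, he⟩ := exists_nat_gt (2 * κ0 / ε)
  have heε : κ0 / ((e : ℝ) + 1) ≤ ε / 2 := by
    have h2 : 2 * κ0 / ε < (e : ℝ) + 1 := by linarith
    rw [div_le_div_iff₀ (by positivity) (by norm_num)]
    rw [div_lt_iff₀ hε] at h2
    linarith
  obtain ⟨C0, hC0, hout⟩ := hlaw α hα hαE (⟨m, b, hbA⟩, Cn, s, e)
  -- large scales
  have ev1 : ∀ᶠ i : ℕ in atTop, 2 ≤ Real.log ((2 : ℝ) ^ i) ^ ((b + κb - a) / 2) :=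
    ((tendsto_rpow_atTop (by linarith)).comp tend_L).eventually_ge_atTop 2
  have ev2 : ∀ᶠ i : ℕ in atTop, 2 ≤ Real.log ((2 : ℝ) ^ i) ^ (η / 2) :=
    ((tendsto_rpow_atTop (by linarith)).comp tend_L).eventually_ge_atTop 2
  have ev3 : ∀ᶠ i : ℕ in atTop, C0 ≤ ((2 : ℝ) ^ i) ^ (ε / 2) :=
    ((tendsto_rpow_atTop (by linarith)).comp
      (tendsto_pow_atTop_atTop_of_one_lt (by norm_num : (1 : ℝ) < 2))).eventually_ge_atTop C0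
  have ev4 : ∀ᶠ i : ℕ in atTop, 2 ≤ ((2 : ℝ) ^ i) ^ (1 / 20 : ℝ) :=
    ((tendsto_rpow_atTop (by norm_num)).comp
      (tendsto_pow_atTop_atTop_of_one_lt (by norm_num : (1 : ℝ) < 2))).eventually_ge_atTop 2
  filter_upwards [hout, ev1, ev2, ev3, ev4, tend_L.eventually_ge_atTop 1] with i hi g1 g2 g3 g4 hL1
  obtain ⟨u, u1, u2, u3, u4, u5, u6⟩ := hi
  simp only [hP] at u2 u4 u5 u6
  rw [hs] at u4 u5 u6
  rw [← hκb, ← hδ0] at u4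
  rw [← hδ0] at u5 u6
  have hX : (0 : ℝ) < 2 ^ i := by positivity
  have hX1 : (1 : ℝ) ≤ 2 ^ i := one_le_pow₀ (by norm_num)
  set L := Real.log ((2 : ℝ) ^ i) with hL
  have hL0 : 0 < L := by linarith
  have hLba : L ^ b ≤ L ^ a := Real.rpow_le_rpow_of_exponent_le hL1 hba
  have hXr : ((2 : ℝ) ^ i) ^ (17 / 20 : ℝ) ≤ ((2 : ℝ) ^ i) ^ (9 / 10 : ℝ) / 2 := by
    have h1 : ((2 : ℝ) ^ i) ^ (9 / 10 : ℝ) = ((2 : ℝ) ^ i) ^ (17 / 20 : ℝ) * ((2 : ℝ) ^ i) ^ (1 / 20 : ℝ) := by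
      rw [← Real.rpow_add hX]
      norm_num
    have h2 : 0 < ((2 : ℝ) ^ i) ^ (17 / 20 : ℝ) := by positivity
    rw [h1]
    nlinarith
  have hδC : 2 * (δ0 / ((Cn : ℝ) + 1)) ≤ δ0 / 2 / C := by
    rw [div_div, mul_div_assoc', div_le_div_iff₀ (by positivity) (by positivity)]
    nlinarith
  refine ⟨u, u1, ?_, u3, ?_, ?_, ?_⟩
  · intro n hn
    refine (u2 n hn).trans ?_
    calc C0 * ((2 : ℝ) ^ i) ^ (κ0 / ((e : ℝ) + 1) - 1 / c) ≤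
        ((2 : ℝ) ^ i) ^ (ε / 2) * ((2 : ℝ) ^ i) ^ (ε / 2 - 1 / c) := by
          apply mul_le_mul g3 _ (by positivity) (by positivity)
          exact Real.rpow_le_rpow_of_exponent_le hX1 (by linarith)
      _ = _ := by
          rw [← Real.rpow_add hX]
          congr 1
          ring
  · intro y hy1 hy2
    apply u4 y (hLba.trans hy1)
    have h1 : L ^ (b + κb) = L ^ (a + (b + κb - a) / 2) * L ^ ((b + κb - a) / 2) := by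
      rw [← Real.rpow_add hL0]
      congr 1
      ring
    have h2 : 0 < L ^ (a + (b + κb - a) / 2) := by positivity
    rw [h1]
    nlinarith
  · intro y hy1 hy2
    have := u5 y (hLba.trans hy1) (hy2.trans hXr)
    linarith
  · intro y hy1 hy2
    refine (u6 y ?_ (hy2.trans hXr)).trans hδC
    refine le_trans ?_ hy1
    have h1 : L ^ (a + η) = L ^ (a + η / 2) * L ^ (η / 2) := by
      rw [← Real.rpow_add hL0]
      congr 1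
      ring
    have h2 : L ^ (b + 1 / ((m : ℝ) + 1)) ≤ L ^ (a + η / 2) :=
      Real.rpow_le_rpow_of_exponent_le hL1 (by linarith)
    have h3 : 0 < L ^ (a + η / 2) := by positivity
    rw [h1]
    nlinarith

end Pool.Agent.U265.MM
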