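import Pool.Agent.U265.MM.Dyad
import Pool.Agent.N610.MS.LIN

/-!
Integrals over the scales, along the sequence. Adapted from `Pool/Agent/N610/MS/LIN.lean`
(helper595), with a count of the members of the sequence instead of one integer.
-/

set_option autoImplicit false

namespace Pool.Agent.U265.MM

open Finset Filter Topology MeasureTheory
open Pool.Agent.Y854.PS
open Pool.Agent.Y854.GM
open Pool.Agent.N610.MS (R)
open Pool.Agent.N610.MS.LIN (R_cmp meas_R bdd_R tend_quot ev_facts)

lemma tend_2 : Tendsto (fun i : ℕ => (2 : ℝ) ^ i) atTop atTop :=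
  tendsto_pow_atTop_atTop_of_one_lt (by norm_num : (1 : ℝ) < 2)

theorem ev_small (A : ℝ) : ∀ᶠ X : ℝ in atTop, Real.log (3 * X) ^ |A| ≤ X ^ (17 / 20 : ℝ) := by
  have h1 : ∀ᶠ X : ℝ in atTop, 3 ≤ X := eventually_ge_atTop 3
  have h5 := (isLittleO_log_rpow_rpow_atTop (s := (17 / 20 : ℝ)) |A| (by norm_num)).bound
    (show (0 : ℝ) < ((2 : ℝ) ^ |A|)⁻¹ by positivity)
  filter_upwards [h5, h1] with X h6 h7
  have hX : (0 : ℝ) < X := by linarith
  have h8 : 0 < Real.log X := Real.log_pos (by linarith)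
  have g6 : Real.log (3 * X) ≤ 2 * Real.log X := by
    rw [Real.log_mul (by norm_num) hX.ne']
    have := Real.log_le_log (by norm_num : (0 : ℝ) < 3) h7
    linarith
  have g7 : 0 < Real.log (3 * X) := Real.log_pos (by linarith)
  rw [Real.norm_of_nonneg (by positivity), Real.norm_of_nonneg (by positivity)] at h6
  have h9 : (0 : ℝ) < (2 : ℝ) ^ |A| := by positivity
  calc Real.log (3 * X) ^ |A| ≤ (2 * Real.log X) ^ |A| := Real.rpow_le_rpow g7.le g6 (abs_nonneg _)
    _ = 2 ^ |A| * Real.log X ^ |A| := Real.mul_rpow (by norm_num) h8.le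
    _ ≤ (2 : ℝ) ^ |A| * (((2 : ℝ) ^ |A|)⁻¹ * X ^ (17 / 20 : ℝ)) := mul_le_mul_of_nonneg_left h6 h9.le
    _ = X ^ (17 / 20 : ℝ) := by rw [← mul_assoc, mul_inv_cancel₀ h9.ne', one_mul]

theorem ev_big (G D ε : ℝ) (hG : 0 ≤ G) (hD : 0 < D) (hε : 0 < ε) :
    ∀ᶠ X : ℝ in atTop, G * (Real.log (3 * X) + 1) ≤ D * X ^ (ε / 2) := by
  have h5 := (isLittleO_log_rpow_rpow_atTop (s := ε / 2) 1 (by positivity)).bound
    (show (0 : ℝ) < D / (3 * G + 1) by positivity)
  filter_upwards [h5, eventually_ge_atTop 3] with X h6 h7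
  have hX : (0 : ℝ) < X := by linarith
  have h8 : 0 < Real.log X := Real.log_pos (by linarith)
  have h81 : 1 ≤ Real.log X := by
    rw [Real.le_log_iff_exp_le hX]
    have := Real.exp_one_lt_d9
    linarith
  have g6 : Real.log (3 * X) ≤ 2 * Real.log X := by
    rw [Real.log_mul (by norm_num) hX.ne']
    have := Real.log_le_log (by norm_num : (0 : ℝ) < 3) h7
    linarith
  rw [Real.rpow_one, Real.norm_of_nonneg h8.le, Real.norm_of_nonneg (by positivity), div_mul_eq_mul_div,
    le_div_iff₀ (by positivity)] at h6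
  nlinarith

set_option maxHeartbeats 4000000 in
open Classical in
theorem lin_core {α c : ℝ} (hα : 0 < α) (hc : 1 < c) (h : S_SEQ α c) (μ : Measure ℝ) [IsFiniteMeasure μ]
    (f : ℝ → ℝ) (B a η A : ℝ)
    (hf : Measurable f) (hfB : ∀ t, |f t| ≤ B) (ha : 0 < a) (hη : 0 < η) (hμa : μ (Set.Iio a) = 0)
    (hμA : μ (Set.Ioi A) = 0) (hf0 : ∀ t, a ≤ t → t ≤ a + η → 0 ≤ f t)
    (hfp : ∀ κ : ℝ, 0 < κ → 0 < ∫ t in Set.Icc a (a + κ), f t ∂μ) (σ : ℝ) (hσ : σ = 1 ∨ σ = -1) :
    ∃ δ : ℝ, 0 < δ ∧ ∀ ε : ℝ, 0 < ε → ∀ᶠ i : ℕ in atTop, ((2 : ℝ) ^ i) ^ (1 / c - ε) ≤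
      (((SW α c i).filter (fun n => δ ≤ σ * ((∫ t, f t * R (ms α c n) (Real.log (ms α c n) ^ t) ∂μ) -
        ∫ t, f t ∂μ))).card : ℝ) := by
  obtain ⟨κ, hκ, hM⟩ := h a η ha hη
  set κ1 := min κ η with hκ1
  have hκ10 : 0 < κ1 := lt_min hκ hη
  set κ' := κ1 / 2 with hκ'
  have hκ'0 : 0 < κ' := by positivity
  have h2κ' : 2 * κ' = κ1 := by rw [hκ']; ring
  have hκ'η : κ' ≤ η := by
    have : κ1 ≤ η := min_le_right _ _
    linarith
  set I0 := ∫ t in Set.Icc a (a + κ'), f t ∂μ with hI0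
  have hI0p : 0 < I0 := hfp κ' hκ'0
  set Dm := μ.real Set.univ with hDm
  have hDm0 : 0 ≤ Dm := measureReal_nonneg
  have hB0 : 0 ≤ B := (abs_nonneg _).trans (hfB 0)
  set C := 8 * (B * Dm + 1) / I0 with hC
  have hC0 : 0 < C := by positivity
  obtain ⟨δ, hδ, hM2⟩ := hM C σ hC0 hσ
  have hσabs : |σ| = 1 := by rcases hσ with h | h <;> simp [h]
  have hσsq : σ * σ = 1 := by rcases hσ with h | h <;> simp [h]
  refine ⟨δ * I0 / 4, by positivity, fun ε hε => ?_⟩
  -- the size of the error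
  set o := δ * I0 / (8 * (I0 + B * Dm)) with ho
  have ho0 : 0 < o := by positivity
  set e0 := o / (1 + δ + δ / C) with he0
  have he00 : 0 < e0 := by positivity
  have hae : ∀ᵐ t ∂μ, a ≤ t ∧ t ≤ A := by
    have h1 : ∀ᵐ t ∂μ, t ∉ Set.Iio a := measure_eq_zero_iff_ae_notMem.1 hμa
    have h2 : ∀ᵐ t ∂μ, t ∉ Set.Ioi A := measure_eq_zero_iff_ae_notMem.1 hμA
    filter_upwards [h1, h2] with t h3 h4
    exact ⟨not_lt.1 h3, not_lt.1 h4⟩
  have hfint : Integrable f μ :=
    Integrable.of_bound hf.aestronglyMeasurable B (Eventually.of_forall fun t => hfB t)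
  have hG0 : 0 ≤ B * Dm := by positivity
  filter_upwards [hM2 (ε / 2) (by positivity), tend_2.eventually (ev_facts a κ' A e0 hκ'0 ha he00),
    tend_2.eventually (ev_small A), tend_2.eventually (ev_big (B * Dm) (δ * I0 / 4) ε hG0 (by positivity) hε)]
    with i hX1 hX2 hX3 hX4
  obtain ⟨w, hw0, hwU, hw1, m1, m2, m3⟩ := hX1
  unfold mean at m1 m2 m3
  obtain ⟨x1, x2, x3, x4, -, x6⟩ := hX2
  have x5 := hX3
  set X : ℝ := (2 : ℝ) ^ i with hX
  rw [h2κ'] at x4
  set L := Real.log X with hL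
  have hL0 : 0 < L := by linarith
  have hX0 : 0 < X := by linarith
  have hL3 : L ≤ Real.log (3 * X) := Real.log_le_log hX0 (by linarith)
  set θ := (L / Real.log (3 * X)) ^ |A| with hθ
  have hL30 : 0 < Real.log (3 * X) := by linarith
  have hq0 : 0 < L / Real.log (3 * X) := by positivity
  have hq1 : L / Real.log (3 * X) ≤ 1 := by rw [div_le_one hL30]; exact hL3
  have hθ0 : 0 < θ := by positivity
  have hθ1 : θ ≤ 1 := Real.rpow_le_one hq0.le hq1 (abs_nonneg _)
  -- the sums
  set S := SW α c i with hS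
  set Mf : ℝ → ℝ := fun y => ∑ n ∈ S, w n * R (ms α c n) y with hMf
  set mf : ℝ → ℝ := fun t => ∑ n ∈ S, w n * R (ms α c n) (Real.log (ms α c n) ^ t) with hmf
  have hnfact : ∀ n ∈ S, X < ms α c n ∧ (ms α c n : ℝ) ≤ 3 * X ∧ 1 < ms α c n ∧ L ≤ Real.log (ms α c n) ∧
      Real.log (ms α c n) ≤ Real.log (3 * X) := by
    intro n hn
    rw [hS, mem_SW hα hc] at hn
    have h1 : X < ms α c n := by
      rw [hX]
      exact_mod_cast hn.2.1
    have h2 : (ms α c n : ℝ) ≤ 3 * X := by
      rw [hX]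
      exact_mod_cast hn.2.2
    have h3 : (1 : ℝ) < ms α c n := by linarith
    refine ⟨h1, h2, by exact_mod_cast h3, Real.log_le_log hX0 h1.le,
      Real.log_le_log (by linarith) h2⟩
  have hcmp : ∀ t, a ≤ t → t ≤ A → θ * Mf (L ^ t) ≤ mf t ∧ θ * mf t ≤ Mf (Real.log (3 * X) ^ t) := by
    intro t hta htA
    have ht0 : 0 ≤ t := by linarith
    have htA' : t ≤ |A| := htA.trans (le_abs_self A)
    have hθy : θ * Real.log (3 * X) ^ t ≤ L ^ t := by
      have h1 : θ ≤ (L / Real.log (3 * X)) ^ t :=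
        Real.rpow_le_rpow_of_exponent_ge hq0 hq1 htA'
      calc θ * Real.log (3 * X) ^ t ≤ (L / Real.log (3 * X)) ^ t * Real.log (3 * X) ^ t :=
            mul_le_mul_of_nonneg_right h1 (by positivity)
        _ = L ^ t := by
            rw [← Real.mul_rpow hq0.le hL30.le, div_mul_cancel₀ _ hL30.ne']
    constructor
    · simp only [hMf, hmf]
      rw [Finset.mul_sum]
      refine Finset.sum_le_sum fun n hn => ?_
      obtain ⟨_, _, h1, h2, h3⟩ := hnfact n hn
      have h4 : L ^ t ≤ Real.log (ms α c n) ^ t := Real.rpow_le_rpow hL0.le h2 ht0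
      have h5 : Real.log (ms α c n) ^ t ≤ Real.log (3 * X) ^ t :=
        Real.rpow_le_rpow (by linarith) h3 ht0
      have h6 := R_cmp h1 hθ0.le (show 0 < L ^ t by positivity) h4
        ((mul_le_mul_of_nonneg_left h5 hθ0.le).trans hθy)
      calc θ * (w n * R (ms α c n) (L ^ t)) = w n * (θ * R (ms α c n) (L ^ t)) := by ring
        _ ≤ _ := mul_le_mul_of_nonneg_left h6 (hw0 n)
    · simp only [hMf, hmf]
      rw [Finset.mul_sum]
      refine Finset.sum_le_sum fun n hn => ?_
      obtain ⟨_, _, h1, h2, h3⟩ := hnfact n hn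
      have hln : 0 < Real.log (ms α c n) := by linarith
      have h4 : L ^ t ≤ Real.log (ms α c n) ^ t := Real.rpow_le_rpow hL0.le h2 ht0
      have h5 : Real.log (ms α c n) ^ t ≤ Real.log (3 * X) ^ t :=
        Real.rpow_le_rpow (by linarith) h3 ht0
      have h6 := R_cmp h1 hθ0.le (show 0 < Real.log (ms α c n) ^ t by positivity) h5 (hθy.trans h4)
      calc θ * (w n * R (ms α c n) (Real.log (ms α c n) ^ t)) = w n * (θ * R (ms α c n) (Real.log (ms α c n) ^ t)) := by ring
        _ ≤ _ := mul_le_mul_of_nonneg_left h6 (hw0 n)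
  -- ranges
  have hrange : ∀ t, a ≤ t → t ≤ A → L ^ a ≤ L ^ t ∧ L ^ t ≤ X ^ (17 / 20 : ℝ) ∧
      L ^ a ≤ Real.log (3 * X) ^ t ∧ Real.log (3 * X) ^ t ≤ X ^ (17 / 20 : ℝ) := by
    intro t hta htA
    have ht0 : 0 ≤ t := by linarith
    have htA' : t ≤ |A| := htA.trans (le_abs_self A)
    have h1 : L ^ a ≤ L ^ t := Real.rpow_le_rpow_of_exponent_le x2 hta
    have h2 : L ^ t ≤ Real.log (3 * X) ^ t := Real.rpow_le_rpow hL0.le hL3 ht0
    have h3 : Real.log (3 * X) ^ t ≤ Real.log (3 * X) ^ |A| :=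
      Real.rpow_le_rpow_of_exponent_le (by linarith) htA'
    exact ⟨h1, (h2.trans h3).trans x5, h1.trans h2, h3.trans x5⟩
  -- `1 / θ - 1 ≤ e0`
  have hθe : 1 ≤ (1 + e0) * θ := x6
  have hkey : ∀ t, a ≤ t → t ≤ A → ∀ u : ℝ, -(δ / C) ≤ u → u ≤ δ →
      u ≤ σ * (Mf (L ^ t) - 1) → u ≤ σ * (Mf (Real.log (3 * X) ^ t) - 1) →
      u - o ≤ σ * (mf t - 1) := by
    intro t hta htA u hu1 hu2 h1 h2
    obtain ⟨c1, c2⟩ := hcmp t hta htA
    have hoe : e0 * (1 + δ + δ / C) = o := by rw [he0]; field_simp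
    have hδC : 0 < δ / C := by positivity
    rcases hσ with hs | hs
    · rw [hs] at h1 ⊢
      -- mf t ≥ θ (1 + u)
      have g1 : θ * (1 + u) ≤ mf t := by
        refine le_trans ?_ c1
        apply mul_le_mul_of_nonneg_left _ hθ0.le
        linarith
      -- (1 - θ) (1 + u) ≤ o
      have g2 : (1 - θ) ≤ e0 := by
        have : e0 * θ ≤ e0 := by nlinarith
        linarith
      have g3 : (1 - θ) * (1 + u) ≤ o := by
        calc (1 - θ) * (1 + u) ≤ (1 - θ) * (1 + δ + δ / C) :=
              mul_le_mul_of_nonneg_left (by linarith) (by linarith)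
          _ ≤ e0 * (1 + δ + δ / C) := mul_le_mul_of_nonneg_right g2 (by positivity)
          _ = o := hoe
      linarith
    · rw [hs] at h2 ⊢
      -- θ mf t ≤ 1 - u
      have g1 : θ * mf t ≤ 1 - u := by linarith
      -- 1 - u + o ≥ mf t
      by_contra hcon
      rw [not_le] at hcon
      have g2 : 1 - u + o < mf t := by linarith
      have g3 : θ * (1 - u + o) < 1 - u := by
        have := mul_lt_mul_of_pos_left g2 hθ0
        linarith
      -- (1 + e0) θ (1 - u + o) < (1 + e0)(1 - u); 1 - u + o ≥ 0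
      rcases le_or_gt 0 (1 - u + o) with g4 | g4
      · have g5 : 1 - u + o ≤ (1 + e0) * (θ * (1 - u + o)) := by nlinarith
        have g6 : (1 + e0) * (θ * (1 - u + o)) < (1 + e0) * (1 - u) :=
          mul_lt_mul_of_pos_left g3 (by linarith)
        have g7 : e0 * (1 - u) ≤ o := by
          rw [← hoe]
          apply mul_le_mul_of_nonneg_left _ he00.le
          linarith
        linarith
      · nlinarith
  have hA1 : ∀ t, a ≤ t → t ≤ A → t ≤ a + κ' → δ - o ≤ σ * (mf t - 1) := by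
    intro t hta htA htκ
    have ht0 : 0 ≤ t := by linarith
    obtain ⟨r1, r2, r3, r4⟩ := hrange t hta htA
    have r5 : Real.log (3 * X) ^ t ≤ L ^ (a + κ) := by
      calc Real.log (3 * X) ^ t ≤ Real.log (3 * X) ^ (a + κ') :=
            Real.rpow_le_rpow_of_exponent_le (by linarith) htκ
        _ ≤ L ^ (a + κ1) := x4
        _ ≤ L ^ (a + κ) := by
            apply Real.rpow_le_rpow_of_exponent_le x2
            have : κ1 ≤ κ := min_le_left _ _
            linarith
    have r6 : L ^ t ≤ Real.log (3 * X) ^ t := Real.rpow_le_rpow hL0.le hL3 ht0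
    have hδC : 0 < δ / C := by positivity
    exact hkey t hta htA δ (by linarith) le_rfl (m1 _ r1 (r6.trans r5)) (m1 _ r3 r5)
  have hA2 : ∀ t, a ≤ t → t ≤ A → -(δ / C) - o ≤ σ * (mf t - 1) := by
    intro t hta htA
    obtain ⟨r1, r2, r3, r4⟩ := hrange t hta htA
    have hδC : 0 < δ / C := by positivity
    exact hkey t hta htA (-(δ / C)) le_rfl (by linarith) (m2 _ r1 r2) (m2 _ r3 r4)
  have hA3 : ∀ t, a + η ≤ t → t ≤ A → |mf t - 1| ≤ δ / C + o := by
    intro t hta htA
    have hta' : a ≤ t := by linarith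
    have ht0 : 0 ≤ t := by linarith
    obtain ⟨r1, r2, r3, r4⟩ := hrange t hta' htA
    have hδC : 0 < δ / C := by positivity
    have r5 : L ^ (a + η) ≤ L ^ t := Real.rpow_le_rpow_of_exponent_le x2 hta
    have r6 : L ^ t ≤ Real.log (3 * X) ^ t := Real.rpow_le_rpow hL0.le hL3 ht0
    have q1 := abs_le.1 (m3 _ r5 r2)
    have q2 := abs_le.1 (m3 _ (r5.trans r6) r4)
    have hoe : e0 * (1 + δ + δ / C) = o := by rw [he0]; field_simp
    obtain ⟨c1, c2⟩ := hcmp t hta' htA
    have g2 : (1 - θ) ≤ e0 := by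
      have : e0 * θ ≤ e0 := by nlinarith
      linarith
    have o1 : e0 * (1 + δ / C) ≤ o := by
      rw [← hoe]
      apply mul_le_mul_of_nonneg_left _ he00.le
      linarith
    rw [abs_le]
    constructor
    · -- mf t ≥ θ (1 - δ/C)
      have g1 : θ * (1 - δ / C) ≤ mf t := by
        refine le_trans ?_ c1
        apply mul_le_mul_of_nonneg_left _ hθ0.le
        have := q1.1
        simp only [hMf] at this ⊢
        linarith
      have g3 : (1 - θ) * (1 - δ / C) ≤ e0 * (1 + δ / C) := by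
        calc (1 - θ) * (1 - δ / C) ≤ (1 - θ) * (1 + δ / C) :=
              mul_le_mul_of_nonneg_left (by linarith) (by linarith)
          _ ≤ _ := mul_le_mul_of_nonneg_right g2 (by positivity)
      linarith
    · -- θ mf t ≤ 1 + δ/C
      have g1 : θ * mf t ≤ 1 + δ / C := by
        have := q2.2
        simp only [hMf] at this c2
        linarith
      by_contra hcon
      rw [not_le] at hcon
      have g4 : 1 + δ / C + o < mf t := by linarith
      have g5 : θ * (1 + δ / C + o) < 1 + δ / C := by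
        have := mul_lt_mul_of_pos_left g4 hθ0
        linarith
      have g6 : 1 + δ / C + o ≤ (1 + e0) * (θ * (1 + δ / C + o)) := by
        have : 0 ≤ 1 + δ / C + o := by positivity
        nlinarith
      have g7 : (1 + e0) * (θ * (1 + δ / C + o)) < (1 + e0) * (1 + δ / C) :=
        mul_lt_mul_of_pos_left g5 (by linarith)
      linarith
  -- pointwise lower bound
  have hδC : 0 < δ / C := by positivity
  have hpt : ∀ᵐ t ∂μ, (Set.Icc a (a + κ')).indicator (fun t => f t * (δ - o)) t - B * (δ / C + o) ≤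
      σ * (f t * mf t - f t) := by
    filter_upwards [hae] with t ht
    obtain ⟨hta, htA⟩ := ht
    have hfb := abs_le.1 (hfB t)
    have e1 : σ * (f t * mf t - f t) = f t * (σ * (mf t - 1)) := by ring
    rw [e1]
    by_cases h1 : t ≤ a + κ'
    · rw [Set.indicator_of_mem (show t ∈ Set.Icc a (a + κ') from ⟨hta, h1⟩)]
      have h2 := hf0 t hta (by linarith)
      have h3 := mul_le_mul_of_nonneg_left (hA1 t hta htA h1) h2
      have h4 : 0 ≤ B * (δ / C + o) := by positivity
      linarith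
    · rw [Set.indicator_of_notMem (fun h => h1 h.2)]
      rcases le_or_gt t (a + η) with h2 | h2
      · have h3 := hf0 t hta h2
        have h4 := mul_le_mul_of_nonneg_left (hA2 t hta htA) h3
        have h5 : f t * (δ / C + o) ≤ B * (δ / C + o) :=
          mul_le_mul_of_nonneg_right hfb.2 (by positivity)
        linarith
      · have h3 := hA3 t h2.le htA
        have h4 : |f t * (σ * (mf t - 1))| ≤ B * (δ / C + o) := by
          rw [abs_mul, abs_mul, hσabs, one_mul]
          exact mul_le_mul (hfB t) h3 (abs_nonneg _) hB0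
        have h5 := (abs_le.1 h4).1
        linarith
  -- integrability
  have hRint : ∀ n ∈ S, Integrable (fun t => f t * R (ms α c n) (Real.log (ms α c n) ^ t)) μ := by
    intro n hn
    obtain ⟨_, _, h1, h2, h3⟩ := hnfact n hn
    have hm : Measurable (fun t => f t * R (ms α c n) (Real.log (ms α c n) ^ t)) := hf.mul (meas_R _ h1)
    apply Integrable.of_bound hm.aestronglyMeasurable
      (B * ((Nat.primeCounting ⌊(ms α c n : ℝ) + Real.log (ms α c n) ^ A⌋₊ : ℝ) /
        (Real.log (ms α c n) ^ a / Real.log (ms α c n))))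
    filter_upwards [hae] with t ht
    rw [norm_mul]
    exact mul_le_mul (hfB t) (bdd_R _ h1 (by linarith) t ht.1 ht.2) (norm_nonneg _) hB0
  have hterm : ∀ n ∈ S, Integrable (fun t => w n * (f t * R (ms α c n) (Real.log (ms α c n) ^ t))) μ :=
    fun n hn => (hRint n hn).const_mul _
  have hfm : (fun t => f t * mf t) = fun t => ∑ n ∈ S, w n * (f t * R (ms α c n) (Real.log (ms α c n) ^ t)) := by
    funext t
    simp only [hmf]
    rw [Finset.mul_sum]
    refine Finset.sum_congr rfl fun n _ => ?_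
    ring
  have hfmint : Integrable (fun t => f t * mf t) μ := by
    rw [hfm]
    exact integrable_finsetSum _ hterm
  have hfmval : ∫ t, f t * mf t ∂μ = ∑ n ∈ S, w n * ∫ t, f t * R (ms α c n) (Real.log (ms α c n) ^ t) ∂μ := by
    rw [hfm, integral_finsetSum _ hterm]
    refine Finset.sum_congr rfl fun n _ => ?_
    rw [integral_const_mul]
  -- the integral inequality
  have hint : δ * I0 / 2 ≤ σ * ((∫ t, f t * mf t ∂μ) - ∫ t, f t ∂μ) := by
    have hL1 : Integrable (fun t => (Set.Icc a (a + κ')).indicator (fun t => f t * (δ - o)) t -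
        B * (δ / C + o)) μ := by
      apply Integrable.sub
      · exact (hfint.mul_const _).indicator measurableSet_Icc
      · exact integrable_const _
    have hL2 : Integrable (fun t => σ * (f t * mf t - f t)) μ := (hfmint.sub hfint).const_mul _
    have h1 := integral_mono_ae hL1 hL2 hpt
    rw [integral_sub ((hfint.mul_const _).indicator measurableSet_Icc) (integrable_const _),
      integral_indicator measurableSet_Icc, integral_mul_const, ← hI0, integral_const,
      integral_const_mul, integral_sub hfmint hfint, smul_eq_mul, ← hDm] at h1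
    refine le_trans ?_ h1
    -- (δ - o) I0 - Dm B (δ/C + o) ≥ δ I0 / 2
    have e1 : o * (I0 + B * Dm) = δ * I0 / 8 := by
      rw [ho]
      have : I0 + B * Dm ≠ 0 := by positivity
      field_simp
    have e2 : B * Dm * (δ / C) ≤ δ * I0 / 8 := by
      have e3 : δ / C = δ * I0 / (8 * (B * Dm + 1)) := by
        rw [hC]; field_simp
      rw [e3, ← mul_div_assoc, div_le_div_iff₀ (by positivity) (by norm_num)]
      have : 0 ≤ δ * I0 := by positivity
      nlinarith
    have e4 : 0 ≤ δ * I0 := by positivity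
    nlinarith
  rw [hfmval] at hint
  -- counting
  set F := ∫ t, f t ∂μ with hF
  set Φ : ℕ → ℝ := fun n => σ * ((∫ t, f t * R (ms α c n) (Real.log (ms α c n) ^ t) ∂μ) - F) with hΦ
  have hsg : δ * I0 / 2 ≤ ∑ n ∈ S, w n * Φ n := by
    refine hint.trans (le_of_eq ?_)
    simp only [hΦ]
    have e1 : ∀ n ∈ S, w n * (σ * ((∫ t, f t * R (ms α c n) (Real.log (ms α c n) ^ t) ∂μ) - F)) =
        σ * (w n * ∫ t, f t * R (ms α c n) (Real.log (ms α c n) ^ t) ∂μ) - (σ * F) * w n := by
      intro n _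
      ring
    rw [Finset.sum_congr rfl e1, Finset.sum_sub_distrib, ← Finset.mul_sum, ← Finset.mul_sum, hw1]
    ring
  have hΦb : ∀ n ∈ S, Φ n ≤ B * Dm * (Real.log (3 * X) + 1) := by
    intro n hn
    obtain ⟨_, _, h1, h2, h3⟩ := hnfact n hn
    have b1 : ‖∫ t, f t * R (ms α c n) (Real.log (ms α c n) ^ t) ∂μ‖ ≤ B * Real.log (3 * X) * Dm := by
      rw [hDm]
      apply norm_integral_le_of_norm_le_const
      filter_upwards [hae] with t ht
      rw [norm_mul]
      apply mul_le_mul (hfB t) _ (norm_nonneg _) hB0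
      have hy : 0 < Real.log (ms α c n) ^ t := Real.rpow_pos_of_pos (by linarith) _
      rw [Real.norm_of_nonneg (Pool.Agent.U265.MM.R_nonneg _ hy.le)]
      exact (Pool.Agent.U265.MM.R_le _ (by omega) hy).trans h3
    have b2 : ‖F‖ ≤ B * Dm := by
      rw [hDm, hF]
      apply norm_integral_le_of_norm_le_const
      exact Eventually.of_forall fun t => hfB t
    rw [Real.norm_eq_abs, abs_le] at b1 b2
    simp only [hΦ]
    rcases hσ with hs | hs
    · rw [hs]; linarith [b1.2, b2.1]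
    · rw [hs]; linarith [b1.1, b2.2]
  set D := δ * I0 / 4 with hD
  have hD0 : 0 < D := by positivity
  set T := S.filter (fun n => D ≤ Φ n) with hT
  have hsplit : ∑ n ∈ S, w n * Φ n ≤ D + (T.card : ℝ) * (X ^ (ε / 2 - 1 / c) * (B * Dm * (Real.log (3 * X) + 1))) := by
    rw [← Finset.sum_filter_add_sum_filter_not S (fun n => D ≤ Φ n), add_comm]
    apply add_le_add
    · calc ∑ n ∈ S with ¬ D ≤ Φ n, w n * Φ n ≤ ∑ n ∈ S with ¬ D ≤ Φ n, w n * D := by
            apply Finset.sum_le_sum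
            intro n hn
            rw [mem_filter, not_le] at hn
            exact mul_le_mul_of_nonneg_left hn.2.le (hw0 n)
        _ ≤ ∑ n ∈ S, w n * D := by
            apply Finset.sum_le_sum_of_subset_of_nonneg (Finset.filter_subset _ _)
            intro n _ _
            exact mul_nonneg (hw0 n) hD0.le
        _ = D := by rw [← Finset.sum_mul, hw1, one_mul]
    · calc ∑ n ∈ S with D ≤ Φ n, w n * Φ n ≤
          ∑ n ∈ T, X ^ (ε / 2 - 1 / c) * (B * Dm * (Real.log (3 * X) + 1)) := by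
            apply Finset.sum_le_sum
            intro n hn
            rw [mem_filter] at hn
            exact mul_le_mul (hwU n hn.1) (hΦb n hn.1) (by linarith [hn.2]) (by positivity)
        _ = _ := by rw [Finset.sum_const, nsmul_eq_mul]
  have hfin : D ≤ (T.card : ℝ) * (X ^ (ε / 2 - 1 / c) * (B * Dm * (Real.log (3 * X) + 1))) := by
    have : δ * I0 / 2 = 2 * D := by rw [hD]; ring
    linarith
  have hX4 : X ^ (ε / 2 - 1 / c) * (B * Dm * (Real.log (3 * X) + 1)) ≤ D * X ^ (ε - 1 / c) := by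
    calc X ^ (ε / 2 - 1 / c) * (B * Dm * (Real.log (3 * X) + 1)) ≤ X ^ (ε / 2 - 1 / c) * (D * X ^ (ε / 2)) :=
          mul_le_mul_of_nonneg_left hX4 (by positivity)
      _ = D * (X ^ (ε / 2 - 1 / c) * X ^ (ε / 2)) := by ring
      _ = D * X ^ (ε - 1 / c) := by
          rw [← Real.rpow_add hX0]
          congr 2
          ring
  have h5 : D ≤ (T.card : ℝ) * (D * X ^ (ε - 1 / c)) := hfin.trans (mul_le_mul_of_nonneg_left hX4 (Nat.cast_nonneg _))
  have h6 : 1 ≤ (T.card : ℝ) * X ^ (ε - 1 / c) := by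
    have h7 : D * 1 ≤ D * ((T.card : ℝ) * X ^ (ε - 1 / c)) := by linarith
    exact le_of_mul_le_mul_left h7 hD0
  have h7 : X ^ (1 / c - ε) * X ^ (ε - 1 / c) = 1 := by
    rw [← Real.rpow_add hX0]
    simp
  have h8 : 0 < X ^ (ε - 1 / c) := by positivity
  have h9 : X ^ (1 / c - ε) * X ^ (ε - 1 / c) ≤ (T.card : ℝ) * X ^ (ε - 1 / c) := by rw [h7]; exact h6
  exact le_of_mul_le_mul_right h9 h8

end Pool.Agent.U265.MM
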