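import Pool.Agent.U265.MM.Tr

/-! From the grid of scales to all scales. -/

set_option autoImplicit false

open Finset Filter

namespace Pool.Agent.U265.MM

open Pool.Agent.Y854.PS
open Pool.Agent.Y854.GM
open Pool.Agent.N610.MS (R)

lemma low_real {τ x A M V N y z : ℝ} (hτ0 : 0 < τ) (hτ1 : τ ≤ 1 / 2) (hA : |A - M| ≤ τ) (hV : |V - 1| ≤ τ)
    (hM : 1 + x ≤ M) (hz : 0 < z) (hyz : y ≤ (1 + τ) * z) (h : z * A ≤ y * N) (hN : 0 ≤ N) :
    1 + x - τ * (7 + 4 * |x|) ≤ N / V := by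
  rw [abs_le] at hA hV
  have hV0 : 0 < V := by linarith
  rw [le_div_iff₀ hV0]
  set D := 1 + x - τ * (7 + 4 * |x|) with hD
  by_cases hD0 : D ≤ 0
  · exact (mul_nonpos_of_nonpos_of_nonneg hD0 hV0.le).trans hN
  push Not at hD0
  have h1 : A ≤ (1 + τ) * N := by
    have h2 : z * A ≤ z * ((1 + τ) * N) := by
      calc z * A ≤ y * N := h
        _ ≤ (1 + τ) * z * N := mul_le_mul_of_nonneg_right hyz hN
        _ = _ := by ring
    exact le_of_mul_le_mul_left h2 hz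
  have hx := abs_nonneg x
  have hx1 := le_abs_self x
  have h3 : D * (1 + τ) ^ 2 ≤ 1 + x - τ := by
    have h4 : (1 + τ) ^ 2 ≤ 1 + 5 / 2 * τ := by nlinarith
    have h5 : D * (1 + τ) ^ 2 ≤ D * (1 + 5 / 2 * τ) := mul_le_mul_of_nonneg_left h4 hD0.le
    have h6 : D ≤ 1 + x := by
      have : 0 ≤ τ * (7 + 4 * |x|) := by positivity
      linarith
    have h7 : D * τ ≤ (1 + x) * τ := mul_le_mul_of_nonneg_right h6 hτ0.le
    have h8 : x * τ ≤ |x| * τ := mul_le_mul_of_nonneg_right hx1 hτ0.le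
    have h9 : 0 ≤ |x| * τ := by positivity
    nlinarith
  have h4 : (1 + τ) * (D * V) ≤ (1 + τ) * N := by
    calc (1 + τ) * (D * V) ≤ (1 + τ) * (D * (1 + τ)) := by
          apply mul_le_mul_of_nonneg_left _ (by linarith)
          apply mul_le_mul_of_nonneg_left _ hD0.le
          linarith
      _ = D * (1 + τ) ^ 2 := by ring
      _ ≤ 1 + x - τ := h3
      _ ≤ A := by linarith
      _ ≤ _ := h1
  exact le_of_mul_le_mul_left h4 (by linarith)

lemma up_real {τ x A M V N y z : ℝ} (hτ0 : 0 < τ) (hτ1 : τ ≤ 1 / 2) (hA : |A - M| ≤ τ) (hV : |V - 1| ≤ τ)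
    (hM : M ≤ 1 + x) (hy : 0 < y) (hyz : z ≤ (1 + τ) * y) (h : y * N ≤ z * A) (hA0 : 0 ≤ A) :
    N / V ≤ 1 + x + τ * (7 + 4 * |x|) := by
  rw [abs_le] at hA hV
  have hV0 : 0 < V := by linarith
  rw [div_le_iff₀ hV0]
  have hx := abs_nonneg x
  have hx1 := le_abs_self x
  have h0 : 0 ≤ 1 + x + τ := by linarith
  set U := 1 + x + τ * (7 + 4 * |x|) with hU
  have hτx : 0 ≤ τ * |x| := by positivity
  have hU0 : 0 ≤ U := by nlinarith
  have h1 : N ≤ (1 + τ) * A := by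
    have h2 : y * N ≤ y * ((1 + τ) * A) := by
      calc y * N ≤ z * A := h
        _ ≤ (1 + τ) * y * A := mul_le_mul_of_nonneg_right hyz hA0
        _ = _ := by ring
    exact le_of_mul_le_mul_left h2 hy
  have h2 : (1 + τ) * A ≤ (1 + τ) * (1 + x + τ) := by
    apply mul_le_mul_of_nonneg_left _ (by linarith)
    linarith
  have h3 : (1 + τ) * (1 + x + τ) ≤ U * (1 - τ) := by
    have h8 : x * τ ≤ |x| * τ := mul_le_mul_of_nonneg_right hx1 hτ0.le
    have h9 : τ * (7 + 4 * |x|) * (1 / 2) ≤ τ * (7 + 4 * |x|) * (1 - τ) := by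
      apply mul_le_mul_of_nonneg_left _ (by positivity)
      linarith
    have h10 : U * (1 - τ) = (1 + x) * (1 - τ) + τ * (7 + 4 * |x|) * (1 - τ) := by rw [hU]; ring
    nlinarith
  have h4 : U * (1 - τ) ≤ U * V := mul_le_mul_of_nonneg_left (by linarith) hU0
  linarith

/-- the mean over the window of the integers -/
noncomputable def MM (w : ℕ → ℕ → ℝ) (i : ℕ) (y : ℝ) : ℝ := ∑ t ∈ Ioc (2 ^ i) (3 * 2 ^ i), w i t * R t y

/-- the total mass on the sequence -/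
noncomputable def VV (α c : ℝ) (w : ℕ → ℕ → ℝ) (i : ℕ) : ℝ := ∑ n ∈ SW α c i, vv α c (w i) n

/-- the sum over the window of the sequence -/
noncomputable def NN (α c : ℝ) (w : ℕ → ℕ → ℝ) (i : ℕ) (y : ℝ) : ℝ :=
  ∑ n ∈ SW α c i, vv α c (w i) n * R (ms α c n) y

lemma vv_nonneg {α c : ℝ} (hα : 0 < α) (hc : 1 < c) {u : ℕ → ℝ} (hu : ∀ t, 0 ≤ u t) (n : ℕ) : 0 ≤ vv α c u n := by
  unfold vv
  exact div_nonneg (hu _) (mul_nonneg (wt_nonneg hc _) (by positivity))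

/-- **From the grid of scales to all scales.** -/
theorem sand {α c b : ℝ} (hα : 0 < α) (hc : 1 < c) (hb : 0 < b) (w : ℕ → ℕ → ℝ) (hw0 : ∀ i t, 0 ≤ w i t)
    (hw1 : ∀ᶠ i : ℕ in atTop, ∑ t ∈ Ioc (2 ^ i) (3 * 2 ^ i), w i t = 1)
    (hV : ∀ ρ : ℝ, 0 < ρ → ∀ᶠ i : ℕ in atTop,
        |∑ n ∈ SW α c i, vv α c (w i) n - ∑ t ∈ Ioc (2 ^ i) (3 * 2 ^ i), w i t| ≤ ρ)
    (hM : ∀ l : ℕ, 1 ≤ l → ∀ ρ : ℝ, 0 < ρ → ∀ᶠ i : ℕ in atTop, ∀ j : ℕ, j < (i + 1) * l →
        |∑ n ∈ SW α c i, vv α c (w i) n * R (ms α c n) (yg b l i j) -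
          ∑ t ∈ Ioc (2 ^ i) (3 * 2 ^ i), w i t * R t (yg b l i j)| ≤ ρ)
    (B ρ : ℝ) (hB : 0 ≤ B) (hρ : 0 < ρ) :
    ∀ᶠ i : ℕ in atTop, 1 / 2 ≤ VV α c w i ∧ VV α c w i ≤ 2 ∧
      ∀ y : ℝ, Real.log (2 ^ i) ^ b ≤ y → y ≤ 2 ^ i →
        (∃ z : ℝ, Real.log (2 ^ i) ^ b ≤ z ∧ y / 2 ≤ z ∧ z ≤ y ∧ ∀ x : ℝ, |x| ≤ B → 1 + x ≤ MM w i z →
          1 + x - ρ ≤ NN α c w i y / VV α c w i) ∧
        (∃ z : ℝ, y ≤ z ∧ z ≤ 2 * y ∧ ∀ x : ℝ, |x| ≤ B → MM w i z ≤ 1 + x →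
          NN α c w i y / VV α c w i ≤ 1 + x + ρ) := by
  set τ : ℝ := min (1 / 2) (ρ / (7 + 4 * B)) with hτ
  have hτ0 : 0 < τ := lt_min (by norm_num) (by positivity)
  have hτ1 : τ ≤ 1 / 2 := min_le_left _ _
  have hτ2 : τ * (7 + 4 * B) ≤ ρ := by
    have := min_le_right (1 / 2) (ρ / (7 + 4 * B))
    rw [← hτ, le_div_iff₀ (by positivity)] at this
    exact this
  obtain ⟨l0, hl0⟩ := exists_nat_gt (1 / τ)
  set l : ℕ := max 2 l0 with hl
  have hl2 : 2 ≤ l := le_max_left _ _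
  have hlpos : (0 : ℝ) < l := by
    have : (2 : ℝ) ≤ l := by exact_mod_cast hl2
    linarith
  have hlτ : 1 / (l : ℝ) ≤ τ := by
    have h1 : (l0 : ℝ) ≤ l := by exact_mod_cast le_max_right _ _
    rw [div_le_iff₀ hlpos]
    rw [div_lt_iff₀ hτ0] at hl0
    nlinarith
  set β : ℝ := 1 + 1 / (l : ℝ) with hβ
  have hβ1 : 1 < β := by
    have : 0 < 1 / (l : ℝ) := by positivity
    linarith
  have hβτ : β ≤ 1 + τ := by linarith
  have hβ2 : β ≤ 2 := by linarith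
  have hβl : 2 ≤ β ^ l := by
    have h1 := one_add_mul_le_pow (a := 1 / (l : ℝ)) (by
      have : 0 < 1 / (l : ℝ) := by positivity
      linarith) l
    have h2 : (l : ℝ) * (1 / (l : ℝ)) = 1 := by
      rw [mul_one_div_cancel hlpos.ne']
    rw [h2] at h1
    rw [hβ]
    linarith
  filter_upwards [hw1, hV τ hτ0, hM l (by omega) τ hτ0, eventually_ge_atTop 2] with i h1 h2 h3 hi2
  have hL1 : 1 ≤ Real.log ((2 : ℝ) ^ i) := by
    rw [Real.log_pow]
    have h4 : (2 : ℝ) ≤ i := by exact_mod_cast hi2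
    have h5 := Real.log_two_gt_d9
    nlinarith
  set L := Real.log ((2 : ℝ) ^ i) with hL
  have hLb : 1 ≤ L ^ b := Real.one_le_rpow hL1 hb.le
  rw [h1] at h2
  have hVV : |VV α c w i - 1| ≤ τ := h2
  have hVV' := abs_le.mp hVV
  refine ⟨by linarith, by linarith, fun y hy1 hy2 => ?_⟩
  have hy0 : 0 < y := by linarith
  obtain ⟨n, hn1, hn2⟩ := exists_nat_pow_near (x := y / L ^ b) (by rw [le_div_iff₀ (by linarith)]; linarith) hβ1
  rw [le_div_iff₀ (by linarith)] at hn1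
  rw [div_lt_iff₀ (by linarith)] at hn2
  have hnl : n ≤ l * i := by
    have h4 : β ^ n ≤ β ^ (l * i) := by
      calc β ^ n ≤ β ^ n * L ^ b := le_mul_of_one_le_right (by positivity) hLb
        _ ≤ y := hn1
        _ ≤ 2 ^ i := hy2
        _ ≤ (β ^ l) ^ i := pow_le_pow_left₀ (by norm_num) hβl i
        _ = β ^ (l * i) := by rw [pow_mul]
    exact (pow_le_pow_iff_right₀ hβ1).mp h4
  have hβn : ∀ m : ℕ, 1 ≤ β ^ m := fun m => one_le_pow₀ hβ1.le
  have hyg : ∀ m : ℕ, yg b l i m = L ^ b * β ^ m := by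
    intro m
    unfold yg
    apply max_eq_right
    have := hβn m
    nlinarith
  have hnj1 : n < (i + 1) * l := by nlinarith
  have hnj2 : n + 1 < (i + 1) * l := by nlinarith
  have hmem : ∀ m ∈ SW α c i, 2 ≤ ms α c m := by
    intro m hm
    rw [mem_SW hα hc] at hm
    have : 1 ≤ 2 ^ i := Nat.one_le_two_pow
    omega
  have hNmono : ∀ s t : ℝ, 0 < s → s ≤ t → s * NN α c w i s ≤ t * NN α c w i t := by
    intro s t hs hst
    unfold NN
    rw [Finset.mul_sum, Finset.mul_sum]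
    apply Finset.sum_le_sum
    intro m hm
    have h4 := yR_mono (ms α c m) (hmem m hm) hs hst
    have h5 := mul_le_mul_of_nonneg_left h4 (vv_nonneg hα hc (hw0 i) m)
    linarith
  have hNnn : ∀ s : ℝ, 0 ≤ s → 0 ≤ NN α c w i s := by
    intro s hs
    apply Finset.sum_nonneg
    intro m _
    exact mul_nonneg (vv_nonneg hα hc (hw0 i) m) (R_nonneg _ hs)
  have hxB : ∀ x : ℝ, |x| ≤ B → τ * (7 + 4 * |x|) ≤ ρ := by
    intro x hx
    have : τ * (7 + 4 * |x|) ≤ τ * (7 + 4 * B) := mul_le_mul_of_nonneg_left (by linarith) hτ0.le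
    linarith
  constructor
  · refine ⟨L ^ b * β ^ n, ?_, ?_, ?_, ?_⟩
    · have := hβn n
      nlinarith
    · have h4 : y < 2 * (L ^ b * β ^ n) := by
        calc y < β ^ (n + 1) * L ^ b := hn2
          _ = β * (L ^ b * β ^ n) := by ring
          _ ≤ 2 * (L ^ b * β ^ n) := mul_le_mul_of_nonneg_right hβ2 (by positivity)
      linarith
    · linarith
    · intro x hx hMx
      have h4 := h3 n hnj1
      rw [hyg n] at h4
      have hz : 0 < L ^ b * β ^ n := by positivity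
      have h5 := low_real (N := NN α c w i y) (y := y) hτ0 hτ1 h4 hVV hMx hz (by
        calc y ≤ β ^ (n + 1) * L ^ b := hn2.le
          _ = β * (L ^ b * β ^ n) := by ring
          _ ≤ (1 + τ) * (L ^ b * β ^ n) := mul_le_mul_of_nonneg_right hβτ hz.le) (by
        exact hNmono _ _ hz (by linarith)) (hNnn y hy0.le)
      have h6 := hxB x hx
      linarith
  · refine ⟨L ^ b * β ^ (n + 1), by linarith, ?_, ?_⟩
    · calc L ^ b * β ^ (n + 1) = β * (β ^ n * L ^ b) := by ring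
        _ ≤ β * y := mul_le_mul_of_nonneg_left hn1 (by linarith)
        _ ≤ 2 * y := mul_le_mul_of_nonneg_right hβ2 hy0.le
    · intro x hx hMx
      have h4 := h3 (n + 1) hnj2
      rw [hyg (n + 1)] at h4
      have hz : 0 < L ^ b * β ^ (n + 1) := by positivity
      have h5 := up_real (N := NN α c w i y) (y := y) hτ0 hτ1 h4 hVV hMx hy0 (by
        calc L ^ b * β ^ (n + 1) = β * (β ^ n * L ^ b) := by ring
          _ ≤ β * y := mul_le_mul_of_nonneg_left hn1 (by linarith)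
          _ ≤ (1 + τ) * y := mul_le_mul_of_nonneg_right hβτ hy0.le) (by
        exact hNmono _ _ hy0 (by linarith)) (hNnn _ hz.le)
      have h6 := hxB x hx
      linarith

end Pool.Agent.U265.MM
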