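import Pool.Agent.U265.MM.Blk
import Pool.Agent.N610.MS.Stm

/-! The weighted means of the densities of primes of the windows: transfer to the sequence. -/

set_option autoImplicit false

open Finset Filter

namespace Pool.Agent.U265.MM

open Pool.Agent.Y854.PS
open Pool.Agent.Y854.GM
open Pool.Agent.N610.MS (R)

/-! ### The density of the primes -/

lemma pc_add (t k : ℕ) : Nat.primeCounting (t + k) ≤ Nat.primeCounting t + k := by
  induction k with
  | zero => simp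
  | succ k ih =>
    have h : Nat.primeCounting (t + k + 1) ≤ Nat.primeCounting (t + k) + 1 := by
      unfold Nat.primeCounting Nat.primeCounting'
      rw [Nat.count_succ]
      split_ifs <;> omega
    have e : t + (k + 1) = t + k + 1 := by ring
    rw [e]
    omega

lemma floor_add (t : ℕ) {y : ℝ} (hy : 0 ≤ y) : ⌊(t : ℝ) + y⌋₊ = t + ⌊y⌋₊ := by
  rw [add_comm, Nat.floor_add_natCast hy, add_comm]

lemma R_nonneg (t : ℕ) {y : ℝ} (hy : 0 ≤ y) : 0 ≤ R t y := by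
  unfold R
  rw [floor_add t hy, Nat.floor_natCast]
  have h1 : (Nat.primeCounting t : ℝ) ≤ Nat.primeCounting (t + ⌊y⌋₊) := by
    exact_mod_cast Nat.monotone_primeCounting (Nat.le_add_right _ _)
  have h2 : (0 : ℝ) ≤ Real.log t := Real.log_natCast_nonneg t
  have h3 : 0 ≤ y / Real.log t := div_nonneg hy h2
  exact div_nonneg (by linarith) h3

lemma yR (t : ℕ) (ht : 2 ≤ t) {y : ℝ} (hy : 0 < y) :
    y * R t y = Real.log t * ((Nat.primeCounting (t + ⌊y⌋₊) : ℝ) - Nat.primeCounting t) := by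
  unfold R
  rw [floor_add t hy.le, Nat.floor_natCast]
  have h2 : (0 : ℝ) < Real.log t := Real.log_pos (by exact_mod_cast (by omega : 1 < t))
  field_simp

lemma R_le (t : ℕ) (ht : 2 ≤ t) {y : ℝ} (hy : 0 < y) : R t y ≤ Real.log t := by
  have h1 := yR t ht hy
  have h2 : (0 : ℝ) < Real.log t := Real.log_pos (by exact_mod_cast (by omega : 1 < t))
  have h3 : (Nat.primeCounting (t + ⌊y⌋₊) : ℝ) - Nat.primeCounting t ≤ y := by
    have h4 := pc_add t ⌊y⌋₊
    have h5 : (Nat.primeCounting (t + ⌊y⌋₊) : ℝ) ≤ Nat.primeCounting t + ⌊y⌋₊ := by exact_mod_cast h4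
    have h6 := Nat.floor_le hy.le
    linarith
  have h7 : y * R t y ≤ y * Real.log t := by
    rw [h1, mul_comm y]
    exact mul_le_mul_of_nonneg_left h3 h2.le
  exact le_of_mul_le_mul_left h7 hy

lemma yR_mono (t : ℕ) (ht : 2 ≤ t) {y y' : ℝ} (hy : 0 < y) (h : y ≤ y') : y * R t y ≤ y' * R t y' := by
  rw [yR t ht hy, yR t ht (lt_of_lt_of_le hy h)]
  have h2 : (0 : ℝ) < Real.log t := Real.log_pos (by exact_mod_cast (by omega : 1 < t))
  apply mul_le_mul_of_nonneg_left _ h2.le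
  have h3 : (Nat.primeCounting (t + ⌊y⌋₊) : ℝ) ≤ Nat.primeCounting (t + ⌊y'⌋₊) := by
    exact_mod_cast Nat.monotone_primeCounting (Nat.add_le_add_left (Nat.floor_le_floor h) t)
  linarith

/-! ### The windows of the sequence -/

lemma fin_W {α c : ℝ} (hα : 0 < α) (hc : 1 < c) (Y : ℕ) : {n : ℕ | ms α c n ≤ Y}.Finite := by
  have hc0 : 0 < c := by linarith
  have h1 : Tendsto (fun n : ℕ => xs α c n) atTop atTop := by
    unfold xs
    exact Tendsto.const_mul_atTop hα ((tendsto_rpow_atTop hc0).comp tendsto_natCast_atTop_atTop)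
  obtain ⟨N, hN⟩ := (h1.eventually (eventually_ge_atTop ((Y : ℝ) + 1))).exists_forall_of_atTop
  apply (Set.finite_Iio N).subset
  intro n hn
  rw [Set.mem_Iio]
  by_contra hcon
  push Not at hcon
  have h2 := hN n hcon
  have h3 : Y + 1 ≤ ms α c n := by
    unfold ms
    apply Nat.le_floor
    push_cast
    exact h2
  have h4 : ms α c n ≤ Y := hn
  omega

open Classical in
/-- the members of the sequence in the window `(2 ^ i, 3 * 2 ^ i]` -/
noncomputable def SW (α c : ℝ) (i : ℕ) : Finset ℕ :=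
  if h : {n : ℕ | 1 ≤ n ∧ 2 ^ i < ms α c n ∧ ms α c n ≤ 3 * 2 ^ i}.Finite then h.toFinset else ∅

lemma mem_SW {α c : ℝ} (hα : 0 < α) (hc : 1 < c) (i n : ℕ) :
    n ∈ SW α c i ↔ 1 ≤ n ∧ 2 ^ i < ms α c n ∧ ms α c n ≤ 3 * 2 ^ i := by
  have h : {n : ℕ | 1 ≤ n ∧ 2 ^ i < ms α c n ∧ ms α c n ≤ 3 * 2 ^ i}.Finite :=
    (fin_W hα hc (3 * 2 ^ i)).subset fun n hn => hn.2.2
  unfold SW
  rw [dif_pos h, Set.Finite.mem_toFinset]
  rfl

/-- the weights on the sequence -/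
noncomputable def vv (α c : ℝ) (u : ℕ → ℝ) (n : ℕ) : ℝ := u (ms α c n) / (wt c (ms α c n) * α ^ (-(1 / c)))

/-- the scales -/
noncomputable def yg (b : ℝ) (l i j : ℕ) : ℝ := max 1 (Real.log ((2 : ℝ) ^ i) ^ b * (1 + 1 / (l : ℝ)) ^ j)

lemma yg_ge_one (b : ℝ) (l i j : ℕ) : 1 ≤ yg b l i j := le_max_left _ _

lemma wt_pos {c : ℝ} (hc : 1 < c) {m : ℕ} (hm : 0 < m) : 0 < wt c m := by
  unfold wt
  have : (0 : ℝ) < m := by exact_mod_cast hm
  positivity

/-- the inverse of the weight -/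
lemma inv_wt {c : ℝ} (hc : 1 < c) {i t : ℕ} (h1 : 2 ^ i < t) (h2 : t ≤ 3 * 2 ^ i) :
    1 / wt c t ≤ 3 * c * ((2 : ℝ) ^ i) ^ (1 - 1 / c) := by
  have hc0 : 0 < c := by linarith
  have ht : 0 < t := by omega
  have ht' : (0 : ℝ) < t := by exact_mod_cast ht
  have h3 : (t : ℝ) ≤ 3 * 2 ^ i := by exact_mod_cast h2
  have hX : (0 : ℝ) < 2 ^ i := by positivity
  have h5 : 1 / c ≤ 1 := by rw [div_le_one hc0]; exact hc.le
  have h6 : 0 < 1 / c := by positivity
  have e : 1 / wt c t = c * (t : ℝ) ^ (1 - 1 / c) := by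
    unfold wt
    have h7 : (t : ℝ) ^ (1 - 1 / c) * (t : ℝ) ^ (1 / c - 1) = 1 := by
      rw [← Real.rpow_add ht']
      simp
    have h8 : (t : ℝ) ^ (1 / c - 1) ≠ 0 := by positivity
    rw [div_eq_iff (by positivity)]
    calc (1 : ℝ) = (c * (1 / c)) * ((t : ℝ) ^ (1 - 1 / c) * (t : ℝ) ^ (1 / c - 1)) := by
          rw [h7, mul_one_div_cancel hc0.ne', one_mul]
      _ = _ := by ring
  rw [e]
  calc c * (t : ℝ) ^ (1 - 1 / c) ≤ c * (3 * 2 ^ i) ^ (1 - 1 / c) := by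
        apply mul_le_mul_of_nonneg_left _ hc0.le
        exact Real.rpow_le_rpow ht'.le h3 (by linarith)
    _ = c * ((3 : ℝ) ^ (1 - 1 / c) * ((2 : ℝ) ^ i) ^ (1 - 1 / c)) := by
        rw [Real.mul_rpow (by norm_num) hX.le]
    _ ≤ c * (3 * ((2 : ℝ) ^ i) ^ (1 - 1 / c)) := by
        apply mul_le_mul_of_nonneg_left _ hc0.le
        apply mul_le_mul_of_nonneg_right _ (by positivity)
        calc (3 : ℝ) ^ (1 - 1 / c) ≤ (3 : ℝ) ^ (1 : ℝ) :=
              Real.rpow_le_rpow_of_exponent_le (by norm_num) (by linarith)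
          _ = 3 := Real.rpow_one 3
    _ = _ := by ring

lemma log_win (η : ℝ) (hη : 0 < η) : ∃ C : ℝ, 0 < C ∧ ∀ i t : ℕ, 1 ≤ t → t ≤ 3 * 2 ^ i →
    Real.log t ≤ C * ((2 : ℝ) ^ i) ^ η := by
  refine ⟨(3 : ℝ) ^ η / η, by positivity, fun i t ht1 ht => ?_⟩
  have hX : (0 : ℝ) < 2 ^ i := by positivity
  have h3 : (t : ℝ) ≤ 3 * 2 ^ i := by exact_mod_cast ht
  have h1 := Real.log_le_rpow_div (Nat.cast_nonneg t) hη
  calc Real.log t ≤ (t : ℝ) ^ η / η := h1
    _ ≤ (3 * 2 ^ i) ^ η / η := by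
        apply div_le_div_of_nonneg_right _ hη.le
        exact Real.rpow_le_rpow (Nat.cast_nonneg _) h3 hη.le
    _ = _ := by
        rw [Real.mul_rpow (by norm_num) hX.le]
        ring

/-- **Transfer of the weighted means.** -/
theorem transfer (c : ℝ) (hc : 1 < c) : ∃ κ : ℝ, 0 < κ ∧ κ < 1 ∧ ∀ {Q : Type} [Countable Q]
    (w : Q → ℕ → ℕ → ℝ) (b : Q → ℝ),
    (∀ q, ∃ C : ℝ, 0 < C ∧ ∀ i t : ℕ, |w q i t| ≤ C * ((2 : ℝ) ^ i) ^ (κ - 1)) →
    ∃ E : Set ℝ, dimH E < 1 ∧ ∀ α : ℝ, 0 < α → α ∉ E → ∀ q : Q,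
      (∀ ρ : ℝ, 0 < ρ → ∀ᶠ i : ℕ in atTop,
        |∑ n ∈ SW α c i, vv α c (w q i) n - ∑ t ∈ Ioc (2 ^ i) (3 * 2 ^ i), w q i t| ≤ ρ) ∧
      (∀ l : ℕ, 1 ≤ l → ∀ ρ : ℝ, 0 < ρ → ∀ᶠ i : ℕ in atTop, ∀ j : ℕ, j < (i + 1) * l →
        |∑ n ∈ SW α c i, vv α c (w q i) n * R (ms α c n) (yg (b q) l i j) -
          ∑ t ∈ Ioc (2 ^ i) (3 * 2 ^ i), w q i t * R t (yg (b q) l i j)| ≤ ρ) := by
  classical
  obtain ⟨κ, hκ0, hκ1, hwin⟩ := windows c hc
  have hc0 : 0 < c := by linarith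
  refine ⟨κ / 2, by positivity, by linarith, fun {Q} _ w b hw => ?_⟩
  -- the families
  set g : Q × ℕ × ℕ × Bool → ℕ → ℕ → ℕ → ℝ := fun p i k t =>
    ((2 : ℝ) ^ i) ^ (1 / c) * (w p.1 i t / wt c t *
      (if p.2.2.2 then R t (yg (b p.1) (p.2.1 + 1) i (k * (p.2.1 + 1) + p.2.2.1)) else 1)) with hg
  have hWG : ∀ p, WG κ (g p) := by
    rintro ⟨q, l, s, f⟩
    obtain ⟨C, hC, hwq⟩ := hw q
    obtain ⟨Cl, hCl, hlog⟩ := log_win (κ / 2) (by positivity)
    refine ⟨C * (3 * c) * (Cl + 1), by positivity, fun i k t _ h1 h2 => ?_⟩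
    simp only [hg]
    have hX : (0 : ℝ) < 2 ^ i := by positivity
    have hX1 : (1 : ℝ) ≤ 2 ^ i := one_le_pow₀ (by norm_num)
    have h2i : 1 ≤ 2 ^ i := Nat.one_le_two_pow
    have ht : 2 ≤ t := by omega
    have hr : |if f = true then R t (yg (b q) (l + 1) i (k * (l + 1) + s)) else 1| ≤
        (Cl + 1) * ((2 : ℝ) ^ i) ^ (κ / 2) := by
      have h3 : (1 : ℝ) ≤ ((2 : ℝ) ^ i) ^ (κ / 2) := Real.one_le_rpow hX1 (by positivity)
      split_ifs
      · have hy : 1 ≤ yg (b q) (l + 1) i (k * (l + 1) + s) := yg_ge_one _ _ _ _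
        rw [abs_of_nonneg (R_nonneg t (by linarith))]
        refine (R_le t ht (by linarith)).trans ((hlog i t (by omega) h2).trans ?_)
        nlinarith
      · rw [abs_one]
        nlinarith
    have hwt := wt_pos hc (m := t) (by omega)
    have h4 := inv_wt hc h1 h2
    rw [abs_mul, abs_mul, abs_div, abs_of_pos hwt, abs_of_pos (Real.rpow_pos_of_pos hX _)]
    have h5 : |w q i t| / wt c t ≤ C * ((2 : ℝ) ^ i) ^ (κ / 2 - 1) * (3 * c * ((2 : ℝ) ^ i) ^ (1 - 1 / c)) := by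
      rw [div_eq_mul_one_div]
      exact mul_le_mul (hwq i t) h4 (by positivity) (by positivity)
    calc ((2 : ℝ) ^ i) ^ (1 / c) * (|w q i t| / wt c t *
          |if f = true then R t (yg (b q) (l + 1) i (k * (l + 1) + s)) else 1|) ≤
        ((2 : ℝ) ^ i) ^ (1 / c) * (C * ((2 : ℝ) ^ i) ^ (κ / 2 - 1) * (3 * c * ((2 : ℝ) ^ i) ^ (1 - 1 / c)) *
          ((Cl + 1) * ((2 : ℝ) ^ i) ^ (κ / 2))) := by
          apply mul_le_mul_of_nonneg_left _ (by positivity)
          exact mul_le_mul h5 hr (abs_nonneg _) (by positivity)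
      _ = C * (3 * c) * (Cl + 1) * (((2 : ℝ) ^ i) ^ (1 / c) * ((2 : ℝ) ^ i) ^ (κ / 2 - 1) *
          ((2 : ℝ) ^ i) ^ (1 - 1 / c) * ((2 : ℝ) ^ i) ^ (κ / 2)) := by ring
      _ = C * (3 * c) * (Cl + 1) * ((2 : ℝ) ^ i) ^ κ := by
          rw [← Real.rpow_add hX, ← Real.rpow_add hX, ← Real.rpow_add hX]
          congr 2
          ring
  obtain ⟨E, hE, hlaw⟩ := hwin g hWG
  refine ⟨E, hE, fun α hα hαE q => ?_⟩
  set a := α ^ (-(1 / c)) with ha
  have ha0 : 0 < a := Real.rpow_pos_of_pos hα _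
  -- one family
  have key : ∀ (l s : ℕ) (f : Bool) (ρ : ℝ), 0 < ρ → ∀ᶠ i : ℕ in atTop, ∀ k : ℕ, k ≤ i →
      |∑ n ∈ SW α c i, vv α c (w q i) n * (if f = true then
          R (ms α c n) (yg (b q) (l + 1) i (k * (l + 1) + s)) else 1) -
        ∑ t ∈ Ioc (2 ^ i) (3 * 2 ^ i), w q i t * (if f = true then
          R t (yg (b q) (l + 1) i (k * (l + 1) + s)) else 1)| ≤ ρ := by
    intro l s f ρ hρ
    obtain ⟨K, hK, i0, h0⟩ := hlaw α hα hαE (q, l, s, f)
    have hlim : Tendsto (fun i : ℕ => K / a * ((2 : ℝ) ^ i) ^ (-κ)) atTop (nhds (K / a * 0)) := by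
      apply Tendsto.const_mul
      exact (tendsto_rpow_neg_atTop hκ0).comp (tendsto_pow_atTop_atTop_of_one_lt (by norm_num))
    rw [mul_zero] at hlim
    filter_upwards [eventually_ge_atTop i0, hlim.eventually (eventually_le_nhds hρ)] with i hi hsmall k hk
    have h1 := h0 i hi k hk (SW α c i) (fun n => mem_SW hα hc i n)
    simp only [hg] at h1
    have hX : (0 : ℝ) < 2 ^ i := by positivity
    set P := ((2 : ℝ) ^ i) ^ (1 / c) with hP
    have hP0 : 0 < P := Real.rpow_pos_of_pos hX _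
    have e1 : ∑ n ∈ SW α c i, P * (w q i (ms α c n) / wt c (ms α c n) * (if f = true then
          R (ms α c n) (yg (b q) (l + 1) i (k * (l + 1) + s)) else 1)) =
        (P * a) * ∑ n ∈ SW α c i, vv α c (w q i) n * (if f = true then
          R (ms α c n) (yg (b q) (l + 1) i (k * (l + 1) + s)) else 1) := by
      rw [Finset.mul_sum]
      apply Finset.sum_congr rfl
      intro n hn
      rw [mem_SW hα hc] at hn
      have hwt := wt_pos hc (m := ms α c n) (by omega)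
      unfold vv
      rw [← ha]
      field_simp
    have e2 : ∑ t ∈ Ioc (2 ^ i) (3 * 2 ^ i), wt c t * (P * (w q i t / wt c t * (if f = true then
          R t (yg (b q) (l + 1) i (k * (l + 1) + s)) else 1))) =
        P * ∑ t ∈ Ioc (2 ^ i) (3 * 2 ^ i), w q i t * (if f = true then
          R t (yg (b q) (l + 1) i (k * (l + 1) + s)) else 1) := by
      rw [Finset.mul_sum]
      apply Finset.sum_congr rfl
      intro t ht
      rw [mem_Ioc] at ht
      have hwt := wt_pos hc (m := t) (by omega)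
      field_simp
    rw [e1, e2] at h1
    have e3 : ∀ A B : ℝ, (P * a) * A - a * (P * B) = (P * a) * (A - B) := fun A B => by ring
    rw [e3, abs_mul, abs_of_pos (by positivity : 0 < P * a)] at h1
    have h2 : K * ((2 : ℝ) ^ i) ^ (1 / c - κ) = (P * a) * (K / a * ((2 : ℝ) ^ i) ^ (-κ)) := by
      rw [sub_eq_add_neg, Real.rpow_add hX, ← hP]
      field_simp
    rw [h2] at h1
    exact (le_of_mul_le_mul_left h1 (by positivity)).trans hsmall
  refine ⟨fun ρ hρ => ?_, fun l hl ρ hρ => ?_⟩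
  · filter_upwards [key 0 0 false ρ hρ] with i hi
    have h := hi 0 (Nat.zero_le _)
    simpa using h
  · obtain ⟨l', rfl⟩ : ∃ l', l = l' + 1 := ⟨l - 1, by omega⟩
    have hall : ∀ᶠ i : ℕ in atTop, ∀ s ∈ range (l' + 1), ∀ k : ℕ, k ≤ i →
      |∑ n ∈ SW α c i, vv α c (w q i) n * (if true = true then
          R (ms α c n) (yg (b q) (l' + 1) i (k * (l' + 1) + s)) else 1) -
        ∑ t ∈ Ioc (2 ^ i) (3 * 2 ^ i), w q i t * (if true = true then
          R t (yg (b q) (l' + 1) i (k * (l' + 1) + s)) else 1)| ≤ ρ := by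
      rw [Filter.eventually_all_finset]
      intro s _
      exact key l' s true ρ hρ
    filter_upwards [hall] with i hi j hj
    have h := hi (j % (l' + 1)) (mem_range.mpr (Nat.mod_lt _ (by omega))) (j / (l' + 1)) (by
      have : j / (l' + 1) < i + 1 := Nat.div_lt_of_lt_mul (by rw [mul_comm]; exact hj)
      omega)
    have e : j / (l' + 1) * (l' + 1) + j % (l' + 1) = j := Nat.div_add_mod' j (l' + 1)
    rw [e] at h
    simpa using h

end Pool.Agent.U265.MM
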